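import Pool.Agent.TH133.Defs

/-!
# Chow-Kunneth filtrations: definitions
-/

open CategoryTheory AlgebraicGeometry

universe u v w

namespace Pool.Agent.Y110

open Pool.Agent.H914 Pool.Agent.H914.VarClass Pool.Agent.H914.VarClass.Obj Pool.Agent.W492.BB
  Pool.Agent.W550.Corr Pool.Agent.TH133

variable {k : Type u} [Field k] {𝒱 : VarClass k}

/-- The step `F^n CH^i(X) = (π_{2i-n} + ⋯ + π_0)_* CH^i(X)`, for any integer `n`, of the filtration
attached to the self-correspondences `π 0, …, π (2 dim X)`. -/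
noncomputable def fil (C : TheoryData.{u, v, 0} 𝒱 ℚ) {X : 𝒱.Obj} (π : ℕ → C.A (X.prod X))
    (i : ℕ) (n : ℤ) : Submodule ℚ (C.A X) :=
  (C.gr X i).map (C.actL (∑ j ∈ (Finset.range (2 * X.dim + 1)).filter
    (fun j : ℕ => (j : ℤ) ≤ 2 * i - n), π j))

/-- The dual of the family `π`: its members are the transposes of the `π (2 dim X - i)`. -/
noncomputable def dualFam (C : TheoryData.{u, v, 0} 𝒱 ℚ) {X : 𝒱.Obj} (π : ℕ → C.A (X.prod X)) :
    ℕ → C.A (X.prod X) :=
  fun i => if i ≤ 2 * X.dim then tp C (π (2 * X.dim - i)) else 0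

/-- The product of the families `π` and `ρ`: its members are the sums of the external products
`π i × ρ j`, `i + j = n`, self-correspondences of `X × Z`. -/
noncomputable def prodFam (C : TheoryData.{u, v, 0} 𝒱 ℚ) {X Z : 𝒱.Obj} (π : ℕ → C.A (X.prod X))
    (ρ : ℕ → C.A (Z.prod Z)) : ℕ → C.A ((X.prod Z).prod (X.prod Z)) :=
  fun n => ∑ i ∈ Finset.range (n + 1), C.mul (C.up (prodMap (fst X Z) (fst X Z)) (π i))
    (C.up (prodMap (snd X Z) (snd X Z)) (ρ (n - i)))

section Weil

variable {C : TheoryData.{u, v, 0} 𝒱 ℚ} {K : Type w} [Field K] (H : WeilTheoryData.{u, v, w} C K)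

/-- Murre's conjecture (C) for `X`: no step of the filtration depends on the choice of the
Chow-Kunneth decomposition. -/
def Independent (X : 𝒱.Obj) : Prop :=
  ∀ π π', IsCK H X π → IsCK H X π' → ∀ (i : ℕ) (n : ℤ), fil C π i n = fil C π' i n

/-- The step `F^0 CH^i(X)` does not depend on the choice of the Chow-Kunneth decomposition of
`X`. -/
def IndependentZero (X : 𝒱.Obj) (i : ℕ) : Prop :=
  ∀ π π', IsCK H X π → IsCK H X π' → fil C π i 0 = fil C π' i 0

/-- `F^0 CH^i(X) = CH^i(X)` for every Chow-Kunneth decomposition of `X`. -/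
def ZeroIsAll (X : 𝒱.Obj) (i : ℕ) : Prop :=
  ∀ π, IsCK H X π → fil C π i 0 = C.gr X i

/-- Correspondences from `X` to `Y` do not raise weights: for Chow-Kunneth decompositions `π` of `X`
and `ρ` of `Y` and a correspondence `Γ` of degree `r` from `X` to `Y`, the component
`ρ_b ∘ Γ ∘ π_a` vanishes if `a + 2 r < b`. -/
def NoRaising (X Y : 𝒱.Obj) : Prop :=
  ∀ π ρ, IsCK H X π → IsCK H Y ρ → ∀ (r : ℤ) (Γ : C.A (X.prod Y)), C.Deg (X.dim + r) Γ →
    ∀ a b : ℕ, (a : ℤ) + 2 * r < b → C.comp (C.comp (π a) Γ) (ρ b) = 0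

/-- For any two Chow-Kunneth decompositions `π` and `π'` of `X` the class of the diagonal of `X` is
in the step `F^0 CH^(dim X)(X × X)` of the filtration attached to the product of the dual of `π`
and of `π'`. -/
def DiagonalInZero (X : 𝒱.Obj) : Prop :=
  ∀ π π', IsCK H X π → IsCK H X π' → dg C X ∈ fil C (prodFam C (dualFam C π) π') X.dim 0

/-- Any two Chow-Kunneth decompositions `π` and `π'` of `X` are conjugate, `π' i = s ∘ π i ∘ t`, where
`s` and `t` are inverse to each other, `s ∘ t = t ∘ s = Δ_X`, and `s - Δ_X` strictly lowers the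
weights with respect to `π`: `π_b ∘ (s - Δ_X) ∘ π_a = 0` for `a ≤ b`. -/
def UnipotentConjugate (X : 𝒱.Obj) : Prop :=
  ∀ π π', IsCK H X π → IsCK H X π' → ∃ s t : C.A (X.prod X), C.Deg X.dim s ∧ C.Deg X.dim t ∧
    C.comp s t = dg C X ∧ C.comp t s = dg C X ∧
    (∀ a b : ℕ, a ≤ b → C.comp (C.comp (π a) (s - dg C X)) (π b) = 0) ∧
    ∀ i, π' i = C.comp (C.comp t (π i)) s

end Weil

end Pool.Agent.Y110
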