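import Pool.Agent.Y110.Defs

/-!
# The conjectures (B) and (D) for one decomposition, faithfulness
-/

open CategoryTheory AlgebraicGeometry

universe u v w

namespace Pool.Agent.Y110

open Pool.Agent.H914 Pool.Agent.H914.VarClass Pool.Agent.H914.VarClass.Obj Pool.Agent.W492.BB
  Pool.Agent.W550.Corr Pool.Agent.TH133

variable {k : Type u} [Field k] {𝒱 : VarClass k}

/-- The second half of Murre's conjecture (B) for the decomposition `π`: `F^(i+1) CH^i(X) = 0` for
all `i`. -/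
def VanishingFor (C : TheoryData.{u, v, 0} 𝒱 ℚ) {X : 𝒱.Obj} (π : ℕ → C.A (X.prod X)) : Prop :=
  ∀ i : ℕ, fil C π i (i + 1) = ⊥

/-- Murre's conjecture (B) for the decomposition `π`: `F^0 CH^i(X) = CH^i(X)` and
`F^(i+1) CH^i(X) = 0` for all `i`. -/
def MurreBFor (C : TheoryData.{u, v, 0} 𝒱 ℚ) {X : 𝒱.Obj} (π : ℕ → C.A (X.prod X)) : Prop :=
  ∀ i : ℕ, fil C π i 0 = C.gr X i ∧ fil C π i (i + 1) = ⊥

section Weil

variable {C : TheoryData.{u, v, 0} 𝒱 ℚ} {K : Type w} [Field K] (H : WeilTheoryData.{u, v, w} C K)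

/-- Murre's conjecture (D) for the decomposition `π` and cycles of codimension `i`: `F^1 CH^i(X)`
is the group of homologically trivial cycles. -/
def MurreDFor {X : 𝒱.Obj} (π : ℕ → C.A (X.prod X)) (i : ℕ) : Prop :=
  ∀ x : C.A X, x ∈ fil C π i 1 ↔ C.Deg i x ∧ H.cl x = 0

/-- The endomorphisms of the motives `h^a(X)`, for all Chow-Kunneth decompositions `π` of `X` and
all `a`, act faithfully on `H^a(X)`: if `γ` is homologically trivial then `π_a ∘ γ ∘ π_a = 0`. -/
def EndFaithful (X : 𝒱.Obj) : Prop :=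
  ∀ π, IsCK H X π → ∀ γ : C.A (X.prod X), C.Deg X.dim γ → H.cl γ = 0 →
    ∀ a : ℕ, C.comp (C.comp (π a) γ) (π a) = 0

end Weil

end Pool.Agent.Y110
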