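import Pool.Agent.Y110.Defs
import Pool.Agent.TH133.Murre

/-!
# The independence of the Chow-Kunneth filtration
-/

open CategoryTheory AlgebraicGeometry

universe u v w

namespace Pool.Agent.Y110

open Pool.Agent.H914 Pool.Agent.H914.VarClass Pool.Agent.H914.VarClass.Obj Pool.Agent.W492.BB
  Pool.Agent.W550.Corr Pool.Agent.TH133

set_option linter.unusedSectionVars false

variable {k : Type u} [Field k] {𝒱 : VarClass k} {C : TheoryData.{u, v, 0} 𝒱 ℚ}
  [hC : IsChowProj C] {K : Type w} [Field K]
  {H : WeilTheoryData.{u, v, w} C K} [hH : IsWeilProj H] {X Y Z W : 𝒱.Obj}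

include hC hH

lemma mem_fil {π : ℕ → C.A (X.prod X)} (h : IsCK H X π) (i : ℕ) (n : ℤ) (x : C.A X) :
    x ∈ fil C π i n ↔ x ∈ C.gr X i ∧ ∀ j : ℕ, 2 * (i : ℤ) - n < j → C.act (π j) x = 0 := by
  have hact : ∀ j m (y : C.A X), C.act (π m) (C.act (π j) y) =
      if j = m then C.act (π j) y else 0 := by
    intro j m y
    rw [← C.act_comp, h.comp_eq]
    split_ifs
    · rfl
    · exact C.act_zero y
  constructor
  · rintro ⟨y, hy, rfl⟩
    rw [TheoryData.actL_apply, act_sum]
    refine ⟨Submodule.sum_mem _ fun j _ => act_mem0 C (h.deg j) hy, fun m hm => ?_⟩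
    rw [act_map_sum]
    apply Finset.sum_eq_zero
    intro j hj
    rw [Finset.mem_filter] at hj
    rw [hact, if_neg (by omega)]
  · rintro ⟨hx, hx'⟩
    refine ⟨x, hx, ?_⟩
    rw [TheoryData.actL_apply]
    have h1 : C.act (∑ j ∈ Finset.range (2 * X.dim + 1), π j) x = x := by
      rw [h.sum, act_dg]
    conv_rhs => rw [← h1]
    rw [act_sum, act_sum]
    apply Finset.sum_subset (Finset.filter_subset _ _)
    intro j hj hj2
    rw [Finset.mem_filter] at hj2
    exact hx' j (by by_contra hcon; exact hj2 ⟨hj, by omega⟩)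

lemma fil_eq_ckFil {π : ℕ → C.A (X.prod X)} (h : IsCK H X π) (i n : ℕ) :
    fil C π i n = ckFil C π i n := by
  ext x
  rw [mem_fil h, h.mem_ckFil]
  constructor
  · rintro ⟨h1, h2⟩
    exact ⟨h1, fun j hj => h2 j (by omega)⟩
  · rintro ⟨h1, h2⟩
    refine ⟨h1, fun j hj => h2 j ?_⟩
    omega

/-! ### The equivalences -/

/-- The mixed compositions of two Chow-Kunneth decompositions do not raise the weights. -/
def Triangular (H : WeilTheoryData.{u, v, w} C K) (X : 𝒱.Obj) : Prop :=
  ∀ π π', IsCK H X π → IsCK H X π' → ∀ a b : ℕ, a < b → C.comp (π a) (π' b) = 0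

lemma independentZero_of (h : Independent H X) (i : ℕ) : IndependentZero H X i :=
  fun π π' hπ hπ' => h π π' hπ hπ' i 0

/-- The diagonal lies in `F^0` for the product of the dual of `π` and of `π`. -/
lemma diag_mem_of_triangular {π π' : ℕ → C.A (X.prod X)} (hπ : IsCK H X π) (hπ' : IsCK H X π')
    (h : ∀ a b : ℕ, a < b → C.comp (π a) (π' b) = 0) :
    dg C X ∈ fil C (prodCK C (dualCK C π) π') X.dim 0 := by
  rw [mem_fil (hπ.dual.prod hπ')]
  refine ⟨dg_mem C X, fun n hn => ?_⟩
  unfold prodCK
  rw [act_sum]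
  apply Finset.sum_eq_zero
  intro i hi
  rw [Finset.mem_range] at hi
  rw [act_tens C (ch_comm C), comp_dg]
  unfold dualCK
  split_ifs with h1
  · rw [tp_tp]
    exact h _ _ (by omega)
  · rw [tp_zero, zero_comp]

lemma diag_mem_self {π : ℕ → C.A (X.prod X)} (hπ : IsCK H X π) :
    dg C X ∈ fil C (prodCK C (dualCK C π) π) X.dim 0 :=
  diag_mem_of_triangular hπ hπ fun a b hab => hπ.orth a b (by omega)

lemma triangular_of_diag (h : DiagonalInZero H X) : Triangular H X := by
  intro π π' hπ hπ' a b hab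
  have h1 : dg C X ∈ fil C (prodCK C (dualCK C π) π') X.dim 0 := h π π' hπ hπ'
  rw [mem_fil (hπ.dual.prod hπ')] at h1
  by_cases ha : a ≤ 2 * X.dim
  · have h2 := comp_zero_of_prod (H := H) hπ hπ' ha (b := b)
      (h1.2 (2 * X.dim - a + b) (by omega))
    rwa [comp_dg] at h2
  · rw [hπ.out a (by omega), zero_comp]

lemma diag_of_triangular (h : Triangular H X) : DiagonalInZero H X :=
  fun π π' hπ hπ' => diag_mem_of_triangular hπ hπ' (h π π' hπ hπ')

/-- Independence of `F^0` in the middle codimension of `X × X` implies that the diagonal is in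
`F^0`. -/
lemma diag_of_indepZero (h : IndependentZero H (X.prod X) X.dim) : DiagonalInZero H X := by
  intro π π' hπ hπ'
  change dg C X ∈ fil C (prodCK C (dualCK C π) π') X.dim 0
  rw [← h _ _ (hπ.dual.prod hπ) (hπ.dual.prod hπ')]
  exact diag_mem_self hπ

lemma diag_of_zeroIsAll (h : ZeroIsAll H (X.prod X) X.dim) : DiagonalInZero H X := by
  intro π π' hπ hπ'
  change dg C X ∈ fil C (prodCK C (dualCK C π) π') X.dim 0
  rw [h _ (hπ.dual.prod hπ')]
  exact dg_mem C X

/-- Two Chow-Kunneth decompositions with triangular mixed compositions are conjugate by a unipotent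
correspondence. -/
lemma unipotent_of_triangular (h : Triangular H X) : UnipotentConjugate H X := by
  intro π π' hπ hπ'
  set N := Finset.range (2 * X.dim + 1) with hN
  let P : ℕ → Cor C X := π
  let P' : ℕ → Cor C X := π'
  have hP : IsCK H X P := hπ
  have hP' : IsCK H X P' := hπ'
  have h1 : ∀ a b, a < b → P' b * P a = 0 := fun a b hab => h π π' hπ hπ' a b hab
  have h2 : ∀ a b, a < b → P b * P' a = 0 := fun a b hab => h π' π hπ' hπ a b hab
  have hPm : ∀ i, P i ∈ cor0 C X := hπ.deg
  have hPm' : ∀ i, P' i ∈ cor0 C X := hπ'.deg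
  let s : Cor C X := ∑ i ∈ N, P' i * P i
  let t : Cor C X := ∑ i ∈ N, P i * P' i
  have out : ∀ i, i ∉ N → P i = 0 := fun i hi => hπ.out i (by
    rw [hN, Finset.mem_range] at hi; omega)
  have out' : ∀ i, i ∉ N → P' i = 0 := fun i hi => hπ'.out i (by
    rw [hN, Finset.mem_range] at hi; omega)
  have hsP : ∀ i, s * P i = P' i * P i := by
    intro i
    by_cases hi : i ∈ N
    · rw [Finset.sum_mul, Finset.sum_eq_single i]
      · rw [mul_assoc, hP.mul_eq, if_pos rfl]
      · intro j _ hj
        rw [mul_assoc, hP.mul_eq, if_neg hj, mul_zero]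
      · exact fun hi' => absurd hi hi'
    · rw [out i hi, mul_zero, mul_zero]
  have hPs : ∀ i, P' i * s = P' i * P i := by
    intro i
    by_cases hi : i ∈ N
    · rw [Finset.mul_sum, Finset.sum_eq_single i]
      · rw [← mul_assoc, hP'.mul_eq, if_pos rfl]
      · intro j _ hj
        rw [← mul_assoc, hP'.mul_eq, if_neg (Ne.symm hj), zero_mul]
      · exact fun hi' => absurd hi hi'
    · rw [out' i hi, zero_mul, zero_mul]
  have hPt : ∀ i, P i * t = P i * P' i := by
    intro i
    by_cases hi : i ∈ N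
    · rw [Finset.mul_sum, Finset.sum_eq_single i]
      · rw [← mul_assoc, hP.mul_eq, if_pos rfl]
      · intro j _ hj
        rw [← mul_assoc, hP.mul_eq, if_neg (Ne.symm hj), zero_mul]
      · exact fun hi' => absurd hi hi'
    · rw [out i hi, zero_mul, zero_mul]
  have hPPP : ∀ i, P i * P' i * P i = P i := by
    intro i
    have e1 : P i * (∑ j ∈ N, P' j) * P i = P i := by
      rw [hP'.sum_eq, mul_one, hP.mul_eq, if_pos rfl]
    rw [Finset.mul_sum, Finset.sum_mul] at e1
    by_cases hi : i ∈ N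
    · rw [Finset.sum_eq_single i] at e1
      · exact e1
      · intro j _ hj
        rcases lt_or_gt_of_ne hj with h3 | h3
        · rw [h2 j i h3, zero_mul]
        · rw [mul_assoc, h1 i j h3, mul_zero]
      · exact fun hi' => absurd hi hi'
    · rw [out i hi, mul_zero]
  have hPPP' : ∀ i, P' i * P i * P' i = P' i := by
    intro i
    have e1 : P' i * (∑ j ∈ N, P j) * P' i = P' i := by
      rw [hP.sum_eq, mul_one, hP'.mul_eq, if_pos rfl]
    rw [Finset.mul_sum, Finset.sum_mul] at e1
    by_cases hi : i ∈ N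
    · rw [Finset.sum_eq_single i] at e1
      · exact e1
      · intro j _ hj
        rcases lt_or_gt_of_ne hj with h3 | h3
        · rw [h1 j i h3, zero_mul]
        · rw [mul_assoc, h2 i j h3, mul_zero]
      · exact fun hi' => absurd hi hi'
    · rw [out' i hi, mul_zero]
  have hts : t * s = 1 := by
    have e1 : t * s = ∑ i ∈ N, P i * P' i * s := by rw [Finset.sum_mul]
    rw [e1, ← hP.sum_eq]
    apply Finset.sum_congr rfl
    intro i _
    rw [mul_assoc, hPs, ← mul_assoc, hPPP]
  have hst : s * t = 1 := by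
    have e1 : s * t = ∑ i ∈ N, P' i * P i * t := by rw [Finset.sum_mul]
    rw [e1, ← hP'.sum_eq]
    apply Finset.sum_congr rfl
    intro i _
    rw [mul_assoc, hPt, ← mul_assoc, hPPP']
  refine ⟨s, t, (cor0 C X).sum_mem fun i _ => (cor0 C X).mul_mem (hPm' i) (hPm i),
    (cor0 C X).sum_mem fun i _ => (cor0 C X).mul_mem (hPm i) (hPm' i), hts, hst, ?_, ?_⟩
  · intro a b hab
    have e1 : P b * ((s - 1) * P a) = 0 := by
      rw [sub_mul, one_mul, hsP, mul_sub, ← mul_assoc]
      rcases eq_or_lt_of_le hab with h3 | h3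
      · rw [← h3, hPPP, hP.mul_eq, if_pos rfl, sub_self]
      · rw [h2 a b h3, zero_mul, hP.mul_eq, if_neg (by omega), sub_zero]
    exact e1
  · intro i
    have e1 : P' i = s * (P i * t) := by
      rw [← mul_assoc, hsP, ← hPs, mul_assoc, hst, mul_one]
    exact e1

/-- Conjugation by unipotent correspondences does not change the filtration. -/
lemma independent_of_unipotent (h : UnipotentConjugate H X) : Independent H X := by
  have key : ∀ π π', IsCK H X π → IsCK H X π' → ∀ (i : ℕ) (n : ℤ),
      fil C π' i n ≤ fil C π i n := by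
    intro π π' hπ hπ' i n x hx
    obtain ⟨s, t, hs, ht, hst, hts, hlow, hconj⟩ := h π π' hπ hπ'
    rw [mem_fil hπ'] at hx
    rw [mem_fil hπ]
    refine ⟨hx.1, fun j hj => ?_⟩
    -- `x = s y` with `y = t x` in the filtration for `π`
    set y := C.act t x with hy
    have hsy : C.act s y = x := by rw [hy, ← C.act_comp, hts, act_dg]
    have hyj : ∀ m : ℕ, 2 * (i : ℤ) - n < m → C.act (π m) y = 0 := by
      intro m hm
      have h1 := hx.2 m hm
      rw [hconj, C.act_comp, C.act_comp] at h1
      have h2 : C.act t (C.act s (C.act (π m) y)) = 0 := by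
        rw [h1, TheoryData.act_map_zero]
      rwa [← C.act_comp, hst, act_dg] at h2
    have hsum : y = ∑ a ∈ Finset.range (2 * X.dim + 1), C.act (π a) y := by
      rw [← act_sum, hπ.sum, act_dg]
    have h3 : ∀ a : ℕ, C.act (π j) (C.act s (C.act (π a) y)) = 0 := by
      intro a
      by_cases ha : 2 * (i : ℤ) - n < a
      · rw [hyj a ha, TheoryData.act_map_zero, TheoryData.act_map_zero]
      · have h4 := hlow a j (by omega)
        have h5 : C.act (C.comp (C.comp (π a) (s - dg C X)) (π j)) y = 0 := by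
          rw [h4, TheoryData.act_zero]
        rw [C.act_comp, C.act_comp, TheoryData.act_sub, act_dg, act_map_sub,
          ← C.act_comp (π a) (π j), hπ.orth a j (by omega), TheoryData.act_zero, sub_zero] at h5
        exact h5
    rw [← hsy, hsum, act_map_sum, act_map_sum]
    exact Finset.sum_eq_zero fun a _ => h3 a
  intro π π' hπ hπ' i n
  exact le_antisymm (key π' π hπ' hπ i n) (key π π' hπ hπ' i n)

/-- Murre's conjecture (C) for `X` implies the first half of (B) for `X`. -/
lemma zeroIsAll_of_indepZero (h : ∀ i, IndependentZero H X i) (i : ℕ) : ZeroIsAll H X i := by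
  have h1 : MurreC0 H X := by
    intro π π' hπ hπ' i
    have := h i π π' hπ hπ'
    rwa [← Nat.cast_zero, fil_eq_ckFil hπ, fil_eq_ckFil hπ'] at this
  intro π hπ
  have h2 := murreB0_of_C0 X h1 π hπ i
  rwa [← Nat.cast_zero, fil_eq_ckFil hπ]

lemma noRaising_of_zeroIsAll (h : ∀ i, ZeroIsAll H (X.prod Y) i) : NoRaising H X Y := by
  have h1 : MurreB0 H (X.prod Y) := by
    intro π hπ i
    have := h i π hπ
    rwa [← Nat.cast_zero, fil_eq_ckFil hπ] at this
  intro π ρ hπ hρ r Γ hΓ a b hab
  by_cases hneg : (X.dim : ℤ) + r < 0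
  · have h2 : Γ = 0 := by
      have h3 := C.gr_neg (X.prod Y) _ hneg
      have h4 : Γ ∈ C.gr (X.prod Y) (X.dim + r) := hΓ
      rw [h3] at h4
      exact (Submodule.mem_bot _).1 h4
    rw [h2, comp_zero, zero_comp]
  · obtain ⟨i, hi⟩ := Int.eq_ofNat_of_zero_le (not_lt.1 hneg)
    have hΓ' : Γ ∈ C.gr (X.prod Y) i := by
      have h4 : Γ ∈ C.gr (X.prod Y) (X.dim + r) := hΓ
      rwa [hi] at h4
    exact comp_zero_of_B0 h1 hπ hρ hΓ' (by omega)

lemma triangular_of_noRaising (h : NoRaising H X X) : Triangular H X := by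
  intro π π' hπ hπ' a b hab
  have h1 := h π π' hπ hπ' 0 (dg C X) (by rw [add_zero]; exact dg_mem C X) a b (by omega)
  rwa [comp_dg] at h1

end Pool.Agent.Y110
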