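import Pool.Agent.Y110.Phantom
import Pool.Agent.Y110.Indep
import Pool.Agent.TH133.Ext

/-!
# No weight raising implies no phantoms; conjugation of decompositions
-/

open CategoryTheory AlgebraicGeometry

universe u v w

namespace Pool.Agent.Y110

open Pool.Agent.H914 Pool.Agent.H914.VarClass Pool.Agent.H914.VarClass.Obj Pool.Agent.W492.BB
  Pool.Agent.W550.Corr Pool.Agent.TH133

set_option linter.unusedSectionVars false

variable {k : Type u} [Field k] {𝒱 : VarClass k} {C : TheoryData.{u, v, 0} 𝒱 ℚ}
  [hC : IsChowProj C] {K : Type w} [Field K]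
  {H : WeilTheoryData.{u, v, w} C K} [hH : IsWeilProj H] {X Y Z W : 𝒱.Obj}

include hC hH

/-- The off-diagonal blocks of self-correspondences are homologically trivial. -/
lemma actH_block {P : ℕ → Cor C X} (hP : IsCK H X P) {f : Cor C X} (hf : f ∈ cor0 C X) {a b : ℕ}
    (hab : a ≠ b) (x : H.A X) : actH C X H (P b * f * P a) x = 0 := by
  have h0 : actH C X H (P b * f * P a) = 0 := by
    apply ext_gr H
    intro m z hz
    rw [LinearMap.zero_apply, map_mul, map_mul, Module.End.mul_apply, Module.End.mul_apply,
      hP.actH_eq' _ _ hz]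
    split_ifs with hm
    · rw [hP.actH_eq' _ _ (actH_mem0 hf hz), if_neg (by omega)]
    · rw [map_zero, map_zero]
  rw [h0, LinearMap.zero_apply]

/-- Under `Triangular` no self-correspondence raises the weights. -/
lemma block_zero_of_triangular (h : Triangular H X) {P : ℕ → Cor C X} (hP : IsCK H X P)
    {f : Cor C X} (hf : f ∈ cor0 C X) {a b : ℕ} (hab : a < b) : P b * f * P a = 0 := by
  have hPm : ∀ i, P i ∈ cor0 C X := hP.deg
  set n : Cor C X := P b * f * P a with hn
  have hnm : n ∈ cor0 C X := (cor0 C X).mul_mem ((cor0 C X).mul_mem (hPm _) hf) (hPm _)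
  have hPab : P a * P b = 0 := by rw [hP.mul_eq, if_neg (by omega)]
  have hPba : P b * P a = 0 := by rw [hP.mul_eq, if_neg (by omega)]
  have hPa : P a * P a = P a := by rw [hP.mul_eq, if_pos rfl]
  have hPb : P b * P b = P b := by rw [hP.mul_eq, if_pos rfl]
  have hnn : n * n = 0 := by
    have : n * n = P b * f * (P a * P b) * f * P a := by simp only [hn, mul_assoc]
    rw [this, hPab, mul_zero, zero_mul, zero_mul]
  have hnact : ∀ x : H.A X, actH C X H n x = 0 := fun x => actH_block hP hf (by omega) x
  have huv' : (1 + n) * (1 - n) = 1 := by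
    rw [mul_sub, mul_one, add_mul, one_mul, hnn]; abel
  have hvu' : (1 - n) * (1 + n) = 1 := by
    rw [mul_add, mul_one, sub_mul, one_mul, hnn]; abel
  have hconj := hP.conj (u := 1 + n) (v := 1 - n) ((cor0 C X).add_mem (cor0 C X).one_mem hnm)
    ((cor0 C X).sub_mem (cor0 C X).one_mem hnm) huv' hvu'
    (fun a => by rw [map_add, map_one, LinearMap.add_apply, hnact, add_zero]; rfl)
  have h1 : P b * ((1 + n) * P a * (1 - n)) = 0 := h _ _ hconj hP a b hab
  have h2 : P b * ((1 + n) * P a * (1 - n)) = n := by
    have e1 : P b * n = n := by rw [hn, ← mul_assoc, ← mul_assoc, hPb]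
    have e2 : n * P a = n := by rw [hn, mul_assoc, hPa]
    calc P b * ((1 + n) * P a * (1 - n)) = (P b * P a + P b * n * P a) * (1 - n) := by
          noncomm_ring
      _ = n := by rw [hPba, e1, e2, zero_add, mul_sub, mul_one, hnn, sub_zero]
  rw [← h2, h1]

/-- The decomposition of an element into blocks. -/
lemma sum_blocks {P : ℕ → Cor C X} (hP : IsCK H X P) (f : Cor C X) :
    f = ∑ b ∈ Finset.range (2 * X.dim + 1), ∑ a ∈ Finset.range (2 * X.dim + 1),
      P b * f * P a := by
  conv_lhs => rw [← one_mul f, ← mul_one (1 * f), ← hP.sum_eq]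
  rw [Finset.sum_mul, Finset.sum_mul]
  apply Finset.sum_congr rfl
  intro b _
  rw [Finset.mul_sum]

/-- Products of strictly triangular elements. -/
lemma list_block_zero {P : ℕ → Cor C X} (hP : IsCK H X P) (l : List (Cor C X))
    (h : ∀ x ∈ l, ∀ a b : ℕ, a ≤ b → P b * x * P a = 0) :
    ∀ a b : ℕ, a < b + l.length → P b * l.prod * P a = 0 := by
  induction l with
  | nil =>
    intro a b hab
    rw [List.length_nil, add_zero] at hab
    rw [List.prod_nil, mul_one, hP.mul_eq, if_neg (by omega)]
  | cons x l ih =>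
    intro a b hab
    have ih' := ih (fun y hy => h y (List.mem_cons_of_mem _ hy))
    rw [List.length_cons] at hab
    have h1 : P b * (x :: l).prod * P a = ∑ c ∈ Finset.range (2 * X.dim + 1),
        (P b * x * P c) * (P c * l.prod * P a) := by
      have e1 : P b * (x :: l).prod * P a = P b * x * 1 * (l.prod * P a) := by
        rw [List.prod_cons, mul_one]; simp only [mul_assoc]
      rw [e1, ← hP.sum_eq, Finset.mul_sum, Finset.sum_mul]
      apply Finset.sum_congr rfl
      intro c _
      have e2 : P c * P c = P c := by rw [hP.mul_eq, if_pos rfl]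
      calc P b * x * P c * (l.prod * P a) = P b * x * (P c * P c) * (l.prod * P a) := by rw [e2]
        _ = _ := by simp only [mul_assoc]
    rw [h1]
    apply Finset.sum_eq_zero
    intro c _
    by_cases hc : c ≤ b
    · rw [h x List.mem_cons_self c b hc, zero_mul]
    · rw [ih' a c (by omega), mul_zero]

lemma list_prod_zero {P : ℕ → Cor C X} (hP : IsCK H X P) (l : List (Cor C X))
    (h : ∀ x ∈ l, ∀ a b : ℕ, a ≤ b → P b * x * P a = 0) (hl : 2 * X.dim < l.length) :
    l.prod = 0 := by
  rw [sum_blocks hP l.prod]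
  apply Finset.sum_eq_zero
  intro b _
  apply Finset.sum_eq_zero
  intro a ha
  rw [Finset.mem_range] at ha
  exact list_block_zero hP l h a b (by omega)

lemma idem_zero_of_strict {P : ℕ → Cor C X} (hP : IsCK H X P) {p : Cor C X} (hpp : p * p = p)
    (h : ∀ a b : ℕ, a ≤ b → P b * p * P a = 0) : p = 0 := by
  have h1 := list_prod_zero hP (List.replicate (2 * X.dim + 1) p)
    (fun x hx => by rw [List.eq_of_mem_replicate hx]; exact h)
    (by rw [List.length_replicate]; omega)
  rw [List.prod_replicate] at h1
  have h2 : ∀ n, p ^ (n + 1) = p := by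
    intro n
    induction n with
    | zero => rw [zero_add, pow_one]
    | succ n ih => rw [pow_succ, ih, hpp]
  rwa [h2] at h1

/-- Moving a homologically trivial idempotent from one weight to another one. -/
lemma move_isCK {P : ℕ → Cor C X} (hP : IsCK H X P) {p : Cor C X} (hp : p ∈ cor0 C X)
    (hpp : p * p = p) (hact : ∀ x, actH C X H p x = 0) {a b : ℕ} (hab : a ≠ b)
    (ha : a ≤ 2 * X.dim) (hb : b ≤ 2 * X.dim) (h1 : P a * p = p) (h2 : p * P a = p) :
    IsCK H X (fun i => (if i = a then P a - p else if i = b then P b + p else P i : Cor C X)) := by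
  have hPm : ∀ i, P i ∈ cor0 C X := hP.deg
  have hPp : ∀ i, i ≠ a → P i * p = 0 := by
    intro i hi
    rw [← h1, ← mul_assoc, hP.mul_eq, if_neg hi, zero_mul]
  have hpP : ∀ i, i ≠ a → p * P i = 0 := by
    intro i hi
    rw [← h2, mul_assoc, hP.mul_eq, if_neg (Ne.symm hi), mul_zero]
  have hPP : ∀ i, P i * P i = P i := fun i => by rw [hP.mul_eq, if_pos rfl]
  have hPo : ∀ i j, i ≠ j → P i * P j = 0 := fun i j hij => by rw [hP.mul_eq, if_neg hij]
  apply isCK_of
  · intro i
    beta_reduce
    split_ifs
    · exact (cor0 C X).sub_mem (hPm _) hp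
    · exact (cor0 C X).add_mem (hPm _) hp
    · exact hPm _
  · intro i hi
    beta_reduce
    rw [if_neg (by omega), if_neg (by omega)]
    exact hP.out i hi
  · intro i j
    beta_reduce
    by_cases hia : i = a
    · subst hia
      rw [if_pos rfl]
      by_cases hja : j = i
      · subst hja
        rw [if_pos rfl, if_pos rfl, sub_mul, mul_sub, mul_sub, hPP, h1, h2, hpp]
        abel
      · rw [if_neg hja, if_neg (Ne.symm hja)]
        by_cases hjb : j = b
        · subst hjb
          rw [if_pos rfl, sub_mul, mul_add, mul_add, hPo _ _ hab, h1, hpP _ hja, hpp]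
          abel
        · rw [if_neg hjb, sub_mul, hPo _ _ (Ne.symm hja), hpP _ hja, sub_zero]
    · rw [if_neg hia]
      by_cases hib : i = b
      · subst hib
        rw [if_pos rfl]
        by_cases hja : j = a
        · subst hja
          rw [if_pos rfl, if_neg hia, add_mul, mul_sub, mul_sub, hPo _ _ hia, hPp _ hia, h2, hpp]
          abel
        · rw [if_neg hja]
          by_cases hjb : j = i
          · subst hjb
            rw [if_pos rfl, if_pos rfl, add_mul, mul_add, mul_add, hPP, hPp _ hia, hpP _ hia, hpp]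
            abel
          · rw [if_neg hjb, if_neg (Ne.symm hjb), add_mul, hPo _ _ (Ne.symm hjb), hpP _ hja,
              add_zero]
      · rw [if_neg hib]
        by_cases hja : j = a
        · subst hja
          rw [if_pos rfl, if_neg hia, mul_sub, hPo _ _ hia, hPp _ hia, sub_zero]
        · rw [if_neg hja]
          by_cases hjb : j = b
          · subst hjb
            rw [if_pos rfl, if_neg hib, mul_add, hPo _ _ hib, hPp _ hia, add_zero]
          · rw [if_neg hjb, hP.mul_eq]
  · rw [← hP.sum_eq]
    have e1 : ∀ i, (if i = a then P a - p else if i = b then P b + p else P i : Cor C X) =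
        P i + ((if i = a then -p else 0) + (if i = b then p else 0)) := by
      intro i
      by_cases hia : i = a
      · subst hia
        rw [if_pos rfl, if_pos rfl, if_neg hab, add_zero, sub_eq_add_neg]
      · rw [if_neg hia, if_neg hia, zero_add]
        by_cases hib : i = b
        · subst hib
          rw [if_pos rfl, if_pos rfl]
        · rw [if_neg hib, if_neg hib, add_zero]
    rw [Finset.sum_congr rfl (fun i _ => e1 i), Finset.sum_add_distrib, Finset.sum_add_distrib,
      Finset.sum_ite_eq', Finset.sum_ite_eq', if_pos (Finset.mem_range.2 (by omega)),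
      if_pos (Finset.mem_range.2 (by omega)), neg_add_cancel, add_zero]
  · intro i m x hx
    beta_reduce
    by_cases hia : i = a
    · subst hia
      rw [if_pos rfl, map_sub, LinearMap.sub_apply, hact, sub_zero, hP.actH_eq' _ _ hx]
    · rw [if_neg hia]
      by_cases hib : i = b
      · subst hib
        rw [if_pos rfl, map_add, LinearMap.add_apply, hact, add_zero, hP.actH_eq' _ _ hx]
      · rw [if_neg hib, hP.actH_eq' _ _ hx]

/-- Correspondences of points. -/
lemma eq_zero_of_dim_zero (hd : X.dim = 0) {p : C.A (X.prod X)} (hp : p ∈ C.gr (X.prod X) X.dim)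
    (hcl : H.cl p = 0) : p = 0 := by
  rw [hd, Nat.cast_zero] at hp
  obtain ⟨q, hq⟩ := hC.gr_zero (X.prod X) p hp
  by_cases hq0 : q = 0
  · rw [hq, hq0, zero_smul]
  · exfalso
    have h1 : (1 : C.A (X.prod X)) = (q⁻¹ • (1 : C.A (X.prod X))) * p := by
      rw [hq, smul_mul_smul_comm, inv_mul_cancel₀ hq0, one_smul, one_mul]
    have h2 : (1 : H.A (X.prod X)) = 0 := by
      rw [← map_one H.cl, h1, map_mul, hcl, mul_zero]
    exact hH.one_ne_zero _ h2

/-- If correspondences do not raise weights then there are no phantoms. -/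
theorem noPhantoms_of_triangular (h : Triangular H X) {π : ℕ → C.A (X.prod X)}
    (hπ : IsCK H X π) : NoPhantoms H X := by
  intro p0 hp0 hpp0 hcl
  by_cases hd : X.dim = 0
  · exact eq_zero_of_dim_zero hd hp0 hcl
  let P : ℕ → Cor C X := π
  have hP : IsCK H X P := hπ
  have hPm : ∀ i, P i ∈ cor0 C X := hP.deg
  have hPP : ∀ i, P i * P i = P i := fun i => by rw [hP.mul_eq, if_pos rfl]
  let p : Cor C X := p0
  have hp : p ∈ cor0 C X := hp0
  have hpp : p * p = p := hpp0
  have hact : ∀ x, actH C X H p x = 0 := by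
    intro x
    change H.act (H.cl p0) x = 0
    rw [hcl, TheoryData.act_zero]
  have hup : ∀ a b, a < b → P b * p * P a = 0 :=
    fun a b hab => block_zero_of_triangular h hP hp hab
  -- the diagonal blocks
  have hdiag : ∀ a, P a * p * P a = 0 := by
    intro a
    by_cases ha : a ≤ 2 * X.dim
    swap
    · have h1 : P a = 0 := hP.out a (by omega)
      rw [h1, mul_zero]
    set q : Cor C X := P a * p * P a with hq
    have hqm : q ∈ cor0 C X := (cor0 C X).mul_mem ((cor0 C X).mul_mem (hPm _) hp) (hPm _)
    have hqq : q * q = q := by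
      have e1 : q * q = P a * p * P a * p * P a := by
        calc q * q = P a * p * (P a * P a) * p * P a := by simp only [hq, mul_assoc]
          _ = _ := by rw [hPP]
      have e2 : q = P a * p * 1 * p * P a := by
        rw [mul_one, mul_assoc (P a) p p, hpp]
      conv_rhs => rw [e2]
      rw [e1, ← hP.sum_eq, Finset.mul_sum, Finset.sum_mul, Finset.sum_mul,
        Finset.sum_eq_single a]
      · intro c _ hc
        rcases lt_or_gt_of_ne hc with h1 | h1
        · rw [hup c a h1, zero_mul, zero_mul]
        · have e3 : P a * p * P c * p * P a = P a * p * (P c * p * P a) := by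
            simp only [mul_assoc]
          rw [e3, hup a c h1, mul_zero]
      · intro h1
        exact absurd (Finset.mem_range.2 (by omega)) h1
    have hqact : ∀ x, actH C X H q x = 0 := by
      intro x
      rw [hq, map_mul, map_mul, Module.End.mul_apply, Module.End.mul_apply, hact, map_zero]
    have h1 : P a * q = q := by rw [hq, ← mul_assoc, ← mul_assoc, hPP]
    have h2 : q * P a = q := by rw [hq, mul_assoc, hPP]
    by_cases ha2 : a < 2 * X.dim
    · have hQ := move_isCK hP hqm hqq hqact (b := a + 1) (by omega) (by omega) (by omega) h1 h2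
      have h3 : (if a + 1 = a then P a - q else if a + 1 = a + 1 then P (a + 1) + q else
          P (a + 1) : Cor C X) * P a = 0 := h _ _ hP hQ a (a + 1) (by omega)
      rw [if_neg (by omega), if_pos rfl, add_mul, hP.mul_eq, if_neg (by omega), zero_add,
        h2] at h3
      exact h3
    · have hQ := move_isCK hP hqm hqq hqact (b := a - 1) (by omega) (by omega) (by omega) h1 h2
      have h3 : P a * (if a - 1 = a then P a - q else if a - 1 = a - 1 then P (a - 1) + q else
          P (a - 1) : Cor C X) = 0 := h _ _ hQ hP (a - 1) a (by omega)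
      rw [if_neg (by omega), if_pos rfl, mul_add, hP.mul_eq, if_neg (by omega), zero_add,
        h1] at h3
      exact h3
  have h3 : p = 0 := by
    apply idem_zero_of_strict hP hpp
    intro a b hab
    rcases eq_or_lt_of_le hab with h4 | h4
    · rw [h4]
      exact hdiag b
    · exact hup a b h4
  exact h3

/-! ### Conjugation -/

/-- If the homologically trivial self-correspondences of degree zero are nilpotent then two
Chow-Kunneth decompositions are conjugate. -/
lemma exists_conj_of_nilpotent (hnil : ∀ x : Cor C X, x ∈ cor0 C X → H.cl (x : C.A (X.prod X)) = 0 →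
    IsNilpotent x) {π π' : ℕ → C.A (X.prod X)} (hπ : IsCK H X π) (hπ' : IsCK H X π') :
    ∃ s t : C.A (X.prod X), C.Deg X.dim s ∧ C.Deg X.dim t ∧
      C.comp s t = dg C X ∧ C.comp t s = dg C X ∧ H.cl (s - dg C X) = 0 ∧
      H.cl (t - dg C X) = 0 ∧ ∀ i, π' i = C.comp (C.comp t (π i)) s := by
  let P : ℕ → Cor C X := π
  let Q : ℕ → Cor C X := π'
  have hP : IsCK H X P := hπ
  have hQ : IsCK H X Q := hπ'
  have hPm : ∀ i, P i ∈ cor0 C X := hP.deg
  have hQm : ∀ i, Q i ∈ cor0 C X := hQ.deg
  set N := Finset.range (2 * X.dim + 1) with hN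
  let s : Cor C X := ∑ i ∈ N, Q i * P i
  have hsm : s ∈ cor0 C X := (cor0 C X).sum_mem fun i _ => (cor0 C X).mul_mem (hQm i) (hPm i)
  have out : ∀ i, i ∉ N → P i = 0 := fun i hi => hP.out i (by
    rw [hN, Finset.mem_range] at hi; omega)
  have out' : ∀ i, i ∉ N → Q i = 0 := fun i hi => hQ.out i (by
    rw [hN, Finset.mem_range] at hi; omega)
  have hsP : ∀ i, s * P i = Q i * P i := by
    intro i
    by_cases hi : i ∈ N
    · rw [Finset.sum_mul, Finset.sum_eq_single i]
      · rw [mul_assoc, hP.mul_eq, if_pos rfl]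
      · intro j _ hj
        rw [mul_assoc, hP.mul_eq, if_neg hj, mul_zero]
      · exact fun hi' => absurd hi hi'
    · rw [out i hi, mul_zero, mul_zero]
  have hQs : ∀ i, Q i * s = Q i * P i := by
    intro i
    by_cases hi : i ∈ N
    · rw [Finset.mul_sum, Finset.sum_eq_single i]
      · rw [← mul_assoc, hQ.mul_eq, if_pos rfl]
      · intro j _ hj
        rw [← mul_assoc, hQ.mul_eq, if_neg (Ne.symm hj), zero_mul]
      · exact fun hi' => absurd hi hi'
    · rw [out' i hi, zero_mul, zero_mul]
  have hcl : H.cl (s - 1 : Cor C X) = 0 := by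
    apply hom_zero_of_act H (Γ := ((s - 1 : Cor C X) : C.A (X.prod X)))
    intro x
    have h0 : actH C X H (s - 1) = 0 := by
      apply ext_gr H
      intro m z hz
      rw [map_sub, map_one, LinearMap.sub_apply, LinearMap.zero_apply, map_sum,
        LinearMap.sum_apply]
      have h1 : ∀ i ∈ N, actH C X H (Q i * P i) z = actH C X H (P i) z := by
        intro i _
        rw [map_mul, Module.End.mul_apply, hP.actH_eq' _ _ hz]
        split_ifs with hm
        · rw [hQ.actH_eq' _ _ hz, if_pos hm]
        · rw [map_zero]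
      rw [Finset.sum_congr rfl h1, ← LinearMap.sum_apply, ← map_sum, hP.sum_eq, map_one]
      exact sub_self z
    have h1 := LinearMap.congr_fun h0 x
    rw [LinearMap.zero_apply] at h1
    exact h1
  obtain ⟨n, hn⟩ := hnil (s - 1) ((cor0 C X).sub_mem hsm (cor0 C X).one_mem) hcl
  -- the inverse
  set y : Cor C X := 1 - s with hy
  have hyn : y ^ n = 0 := by
    have : y = -(s - 1) := by rw [hy, neg_sub]
    rw [this, neg_pow, hn, mul_zero]
  let t : Cor C X := ∑ i ∈ Finset.range n, y ^ i
  have hym : y ∈ cor0 C X := (cor0 C X).sub_mem (cor0 C X).one_mem hsm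
  have htm : t ∈ cor0 C X := (cor0 C X).sum_mem fun i _ => (cor0 C X).pow_mem hym i
  have hs1 : s = 1 - y := by rw [hy, sub_sub_cancel]
  have hst : s * t = 1 := by
    rw [hs1]
    have := mul_neg_geom_sum y n
    rw [hyn, sub_zero] at this
    exact this
  have hts : t * s = 1 := by
    rw [hs1]
    have := geom_sum_mul_neg y n
    rw [hyn, sub_zero] at this
    exact this
  have hclt : H.cl (t - 1 : Cor C X) = 0 := by
    have h1 : (t - 1 : Cor C X) = (-(s - 1)) * t := by
      rw [neg_mul, sub_mul, hst, one_mul, neg_sub]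
    have h2 : ∀ z : C.A (X.prod X), H.cl z = 0 → H.cl (-z) = 0 := by
      intro z hz
      rw [map_neg, hz, neg_zero]
    have h3 : H.cl (C.comp (X := X) (Y := X) (Z := X) t (-(s - 1) : Cor C X)) = 0 := by
      rw [cl_comp]
      have h4 : H.cl (-(s - 1) : Cor C X) = 0 := h2 _ hcl
      rw [h4]
      exact comp_zero _ _
    rw [h1]
    exact h3
  refine ⟨s, t, hsm, htm, hts, hst, hcl, hclt, fun i => ?_⟩
  have e1 : Q i = s * (P i * t) := by
    rw [← mul_assoc, hsP, ← hQs, mul_assoc, hst, mul_one]
  exact e1

/-- The filtration of a conjugate decomposition. -/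
lemma mem_fil_conj {π π' : ℕ → C.A (X.prod X)} (hπ : IsCK H X π) (hπ' : IsCK H X π')
    {s t : C.A (X.prod X)} (hs : C.Deg X.dim s) (ht : C.Deg X.dim t)
    (hst : C.comp s t = dg C X) (hts : C.comp t s = dg C X)
    (hc : ∀ i, π' i = C.comp (C.comp t (π i)) s) (i : ℕ) (n : ℤ) (x : C.A X) :
    x ∈ fil C π' i n ↔ C.act t x ∈ fil C π i n := by
  rw [mem_fil hπ', mem_fil hπ]
  have hinj : ∀ z : C.A X, C.act s z = 0 → z = 0 := by
    intro z hz
    have h1 : C.act t (C.act s z) = 0 := by rw [hz, TheoryData.act_map_zero]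
    rwa [← C.act_comp, hst, act_dg] at h1
  constructor
  · rintro ⟨h1, h2⟩
    refine ⟨act_mem0 C ht h1, fun j hj => ?_⟩
    have h3 := h2 j hj
    rw [hc, C.act_comp, C.act_comp] at h3
    exact hinj _ h3
  · rintro ⟨h1, h2⟩
    have h4 : x = C.act s (C.act t x) := by rw [← C.act_comp, hts, act_dg]
    refine ⟨?_, fun j hj => ?_⟩
    · rw [h4]
      exact act_mem0 C hs h1
    · rw [hc, C.act_comp, C.act_comp, h2 j hj, TheoryData.act_map_zero]

end Pool.Agent.Y110
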