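import Pool.Agent.Y110.Defs2
import Pool.Agent.Y110.Indep
import Pool.Agent.Y110.Phan

/-!
# Lemmas on (D) for one decomposition
-/

open CategoryTheory AlgebraicGeometry

universe u v w

namespace Pool.Agent.Y110.Dfor

open Pool.Agent.H914 Pool.Agent.H914.VarClass Pool.Agent.H914.VarClass.Obj Pool.Agent.W492.BB
  Pool.Agent.W550.Corr Pool.Agent.TH133 Pool.Agent.Y110

set_option linter.unusedSectionVars false

variable {k : Type u} [Field k] {𝒱 : VarClass k} {C : TheoryData.{u, v, 0} 𝒱 ℚ}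
  [hC : IsChowProj C] {K : Type w} [Field K]
  {H : WeilTheoryData.{u, v, w} C K} [hH : IsWeilProj H] {X Y Z W : 𝒱.Obj}

include hC hH

lemma C_of_zeroIsAll (h : ∀ (X : 𝒱.Obj) (i : ℕ), ZeroIsAll H X i) (X : 𝒱.Obj) :
    Independent H X :=
  independent_of_unipotent (unipotent_of_triangular (triangular_of_noRaising
    (noRaising_of_zeroIsAll (h _))))

lemma cl_act_zero {π : ℕ → C.A (X.prod X)} (hπ : IsCK H X π) {i j : ℕ} (hij : j ≠ 2 * i)
    {x : C.A X} (hx : x ∈ C.gr X i) : H.cl (C.act (π j) x) = 0 := by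
  rw [cl_act H]
  have h3 := H.cl_mem hx
  exact hπ.act_ne j (2 * i) _ (by omega) (by exact_mod_cast h3)

/-- The inclusion of `F^1` in the homologically trivial cycles. -/
lemma cl_eq_zero_of_fil {π : ℕ → C.A (X.prod X)} (hπ : IsCK H X π) {i : ℕ} {x : C.A X}
    (hx : x ∈ fil C π i 1) : C.Deg i x ∧ H.cl x = 0 := by
  rw [mem_fil hπ] at hx
  refine ⟨hx.1, ?_⟩
  have h1 : x = ∑ j ∈ Finset.range (2 * X.dim + 1), C.act (π j) x := by
    rw [← act_sum, hπ.sum, act_dg]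
  rw [h1, map_sum]
  apply Finset.sum_eq_zero
  intro j _
  by_cases hj : j = 2 * i
  · rw [hx.2 j (by omega), map_zero]
  · exact cl_act_zero hπ hj hx.1

lemma murreDFor_iff {π : ℕ → C.A (X.prod X)} (hπ : IsCK H X π) (i : ℕ) :
    MurreDFor H π i ↔ ∀ x : C.A X, C.Deg i x → H.cl x = 0 → ∀ j : ℕ, 2 * i ≤ j →
      C.act (π j) x = 0 := by
  constructor
  · intro h x hx hcl j hj
    have h1 := (h x).2 ⟨hx, hcl⟩
    rw [mem_fil hπ] at h1
    exact h1.2 j (by omega)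
  · intro h x
    refine ⟨cl_eq_zero_of_fil hπ, fun hx => ?_⟩
    rw [mem_fil hπ]
    exact ⟨hx.1, fun j hj => h x hx.1 hx.2 j (by omega)⟩

/-- (D) implies `F^0 CH^i = CH^i`, for the same decomposition. -/
lemma fil_zero_of_D {π : ℕ → C.A (X.prod X)} (hπ : IsCK H X π) {i : ℕ} (h : MurreDFor H π i) :
    fil C π i 0 = C.gr X i := by
  ext x
  rw [mem_fil hπ]
  refine ⟨fun h' => h'.1, fun hx => ⟨hx, fun j hj => ?_⟩⟩
  have h1 : C.act (π j) x ∈ C.gr X i := act_mem0 C (hπ.deg j) hx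
  have h2 := (murreDFor_iff hπ i).1 h _ h1 (cl_act_zero hπ (by omega) hx) j (by omega)
  rwa [← C.act_comp, hπ.idem] at h2

end Pool.Agent.Y110.Dfor
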