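import Pool.Agent.TH133.Defs
import Mathlib.Algebra.Ring.NegOnePow

/-!
# Graded commutativity of the cohomology
-/

open CategoryTheory AlgebraicGeometry

universe u v w

namespace Pool.Agent.Y110

open Pool.Agent.H914 Pool.Agent.H914.VarClass Pool.Agent.H914.VarClass.Obj Pool.Agent.W492.BB
  Pool.Agent.W550.Corr Pool.Agent.TH133

variable {k : Type u} [Field k] {𝒱 : VarClass k}

/-- The cohomology ring is graded commutative: `a b = (-1)^(i j) b a` for `a ∈ H^i(X)` and
`b ∈ H^j(X)`. -/
def GradedCommutative {C : TheoryData.{u, v, 0} 𝒱 ℚ} {K : Type w} [Field K]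
    (H : WeilTheoryData.{u, v, w} C K) : Prop :=
  ∀ (X : 𝒱.Obj) (i j : ℤ) (a b : H.A X), H.Deg i a → H.Deg j b →
    H.mul a b = (i * j).negOnePow • H.mul b a

end Pool.Agent.Y110
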