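import Pool.Agent.TH829.Kim.Quot

/-!
# Powers of a variety: permutations, powers of correspondences
-/

open CategoryTheory AlgebraicGeometry

universe u v w

namespace Pool.Agent.Y110

open Pool.Agent.H914 Pool.Agent.H914.VarClass Pool.Agent.H914.VarClass.Obj Pool.Agent.W492.BB
  Pool.Agent.W550.Corr Pool.Agent.TH133 Pool.Agent.TH829.Prime Pool.Agent.TH829.Kim

set_option linter.unusedSectionVars false

variable {k : Type u} [Field k] {𝒱 : VarClass k}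

section maps

variable {X Y W V P : 𝒱.Obj}

/-- The variety `P`, with the morphisms `pr i : P ⟶ X`, is the power `X^n`. -/
structure IsPow {P X : 𝒱.Obj} {n : ℕ} (pr : Fin n → (P ⟶ X)) : Prop where
  exists_lift : ∀ (W : 𝒱.Obj) (f : Fin n → (W ⟶ X)), ∃ g : W ⟶ P, ∀ i, g ≫ pr i = f i
  ext : ∀ (W : 𝒱.Obj) (f g : W ⟶ P), (∀ i, f ≫ pr i = g ≫ pr i) → f = g

lemma isPow_one (X : 𝒱.Obj) : IsPow (fun _ : Fin 1 => 𝟙 X) where
  exists_lift W f := ⟨f 0, fun i => by rw [Category.comp_id, Subsingleton.elim i 0]⟩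
  ext W f g h := by
    have := h 0
    rwa [Category.comp_id, Category.comp_id] at this

/-- The projections of `X × X^n`. -/
noncomputable def consPr {n : ℕ} (pr : Fin n → (P ⟶ X)) : Fin (n + 1) → (X.prod P ⟶ X) :=
  Fin.cons (fst X P) (fun i => snd X P ≫ pr i)

lemma consPr_zero {n : ℕ} (pr : Fin n → (P ⟶ X)) : consPr pr 0 = fst X P := rfl
lemma consPr_succ {n : ℕ} (pr : Fin n → (P ⟶ X)) (i : Fin n) :
    consPr pr i.succ = snd X P ≫ pr i := rfl

lemma IsPow.succ {n : ℕ} {pr : Fin n → (P ⟶ X)} (h : IsPow pr) : IsPow (consPr pr) where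
  exists_lift W f := by
    obtain ⟨g, hg⟩ := h.exists_lift W (fun i => f i.succ)
    refine ⟨Obj.lift (f 0) g, fun i => ?_⟩
    refine Fin.cases ?_ (fun i => ?_) i
    · rw [consPr_zero, lift_fst]
    · rw [consPr_succ, lift_snd_assoc, hg]
  ext W f g h1 := by
    apply prod_ext
    · exact h1 0
    · apply h.ext
      intro i
      have := h1 i.succ
      rwa [consPr_succ, ← Category.assoc, ← Category.assoc] at this

/-- The permutation of the factors of the power. -/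
noncomputable def IsPow.perm {n : ℕ} {pr : Fin n → (P ⟶ X)} (h : IsPow pr)
    (σ : Equiv.Perm (Fin n)) : P ⟶ P := (h.exists_lift P (fun i => pr (σ i))).choose

lemma IsPow.perm_pr {n : ℕ} {pr : Fin n → (P ⟶ X)} (h : IsPow pr)
    (σ : Equiv.Perm (Fin n)) (i : Fin n) : h.perm σ ≫ pr i = pr (σ i) :=
  (h.exists_lift P (fun i => pr (σ i))).choose_spec i

lemma IsPow.perm_comp {n : ℕ} {pr : Fin n → (P ⟶ X)} (h : IsPow pr)
    (σ τ : Equiv.Perm (Fin n)) : h.perm σ ≫ h.perm τ = h.perm (σ * τ) := by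
  apply h.ext
  intro i
  rw [Category.assoc, h.perm_pr, h.perm_pr, h.perm_pr]
  rfl

lemma IsPow.perm_one {n : ℕ} {pr : Fin n → (P ⟶ X)} (h : IsPow pr) : h.perm 1 = 𝟙 _ := by
  apply h.ext
  intro i
  rw [h.perm_pr, Category.id_comp]
  rfl

lemma IsPow.perm_inv {n : ℕ} {pr : Fin n → (P ⟶ X)} (h : IsPow pr) (σ : Equiv.Perm (Fin n)) :
    h.perm σ ≫ h.perm σ⁻¹ = 𝟙 _ := by
  rw [h.perm_comp, mul_inv_cancel, h.perm_one]

lemma IsPow.perm_inv' {n : ℕ} {pr : Fin n → (P ⟶ X)} (h : IsPow pr) (σ : Equiv.Perm (Fin n)) :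
    h.perm σ⁻¹ ≫ h.perm σ = 𝟙 _ := by
  rw [h.perm_comp, inv_mul_cancel, h.perm_one]

end maps

section theory

variable {F : Type w} [Field F] {δ : ℤ} (T : TheoryData.{u, v, w} 𝒱 F) [hT : IsTheory T δ]
  [hI : HasIso T] {V W X Y Z : 𝒱.Obj}

include hT hI

/-- Composition with pull-backs under isomorphisms. -/
lemma comp_pullR (Γ : T.A (Z.prod W)) (Γ' : T.A (W.prod Y)) (f : X ⟶ Y) (g : Y ⟶ X)
    (h1 : f ≫ g = 𝟙 X) (h2 : g ≫ f = 𝟙 Y) :
    T.comp Γ (T.pull (prodMap (𝟙 W) f) Γ') = T.pull (prodMap (𝟙 Z) f) (T.comp Γ Γ') := by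
  have k1 : prodMap (𝟙 (Z.prod W)) g ≫ prodMap (𝟙 (Z.prod W)) f = 𝟙 _ := by
    rw [prodMap_comp, h2, Category.comp_id]
    apply prod_ext <;> simp
  have k2 : prodMap (𝟙 (Z.prod W)) f ≫ prodMap (𝟙 (Z.prod W)) g = 𝟙 _ := by
    rw [prodMap_comp, h1, Category.comp_id]
    apply prod_ext <;> simp
  have k3 : prodMap (𝟙 Z) f ≫ prodMap (𝟙 Z) g = 𝟙 _ := by
    rw [prodMap_comp, h1, Category.comp_id]
    apply prod_ext <;> simp
  have k4 : prodMap (𝟙 Z) g ≫ prodMap (𝟙 Z) f = 𝟙 _ := by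
    rw [prodMap_comp, h2, Category.comp_id]
    apply prod_ext <;> simp
  have e1 : prodMap (𝟙 (Z.prod W)) g ≫ t13 Z W X = t13 Z W Y ≫ prodMap (𝟙 Z) g := by
    apply prod_ext <;> simp [t13]
  have e2 : (prodMap (𝟙 (Z.prod W)) g ≫ t23 Z W X) ≫ prodMap (𝟙 W) f = t23 Z W Y := by
    apply prod_ext
    · simp [t23]
    · simp [t23, h2]
  have e3 : prodMap (𝟙 (Z.prod W)) g ≫ fst (Z.prod W) X = fst (Z.prod W) Y := by simp
  rw [pull_iso T (prodMap (𝟙 Z) f) (prodMap (𝟙 Z) g) k3 k4, TheoryData.comp, TheoryData.comp,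
    ← T.push_comp, push_model T (prodMap (𝟙 (Z.prod W)) g) (prodMap (𝟙 (Z.prod W)) f) k1 k2,
    map_mul, ← T.pull_comp, ← T.pull_comp, ← T.pull_comp, e1, e2, e3]

/-- Composition with pull-backs under isomorphisms. -/
lemma comp_pullL (Γ : T.A (W.prod Z)) (Γ' : T.A (Y.prod W)) (f : X ⟶ Y) (g : Y ⟶ X)
    (h1 : f ≫ g = 𝟙 X) (h2 : g ≫ f = 𝟙 Y) :
    T.comp (T.pull (prodMap f (𝟙 W)) Γ') Γ = T.pull (prodMap f (𝟙 Z)) (T.comp Γ' Γ) := by
  have k1 : prodMap (prodMap g (𝟙 W)) (𝟙 Z) ≫ prodMap (prodMap f (𝟙 W)) (𝟙 Z) = 𝟙 _ := by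
    rw [prodMap_comp, prodMap_comp, h2, Category.comp_id, Category.comp_id]
    apply prod_ext
    · apply prod_ext <;> simp
    · simp
  have k2 : prodMap (prodMap f (𝟙 W)) (𝟙 Z) ≫ prodMap (prodMap g (𝟙 W)) (𝟙 Z) = 𝟙 _ := by
    rw [prodMap_comp, prodMap_comp, h1, Category.comp_id, Category.comp_id]
    apply prod_ext
    · apply prod_ext <;> simp
    · simp
  have k3 : prodMap f (𝟙 Z) ≫ prodMap g (𝟙 Z) = 𝟙 _ := by
    rw [prodMap_comp, h1, Category.comp_id]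
    apply prod_ext <;> simp
  have k4 : prodMap g (𝟙 Z) ≫ prodMap f (𝟙 Z) = 𝟙 _ := by
    rw [prodMap_comp, h2, Category.comp_id]
    apply prod_ext <;> simp
  have e1 : prodMap (prodMap g (𝟙 W)) (𝟙 Z) ≫ t13 X W Z = t13 Y W Z ≫ prodMap g (𝟙 Z) := by
    apply prod_ext <;> simp [t13]
  have e2 : (prodMap (prodMap g (𝟙 W)) (𝟙 Z) ≫ fst (X.prod W) Z) ≫ prodMap f (𝟙 W) =
      fst (Y.prod W) Z := by
    apply prod_ext
    · simp [h2]
    · simp
  have e3 : prodMap (prodMap g (𝟙 W)) (𝟙 Z) ≫ t23 X W Z = t23 Y W Z := by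
    apply prod_ext <;> simp [t23]
  rw [pull_iso T (prodMap f (𝟙 Z)) (prodMap g (𝟙 Z)) k3 k4, TheoryData.comp, TheoryData.comp,
    ← T.push_comp, push_model T (prodMap (prodMap g (𝟙 W)) (𝟙 Z))
      (prodMap (prodMap f (𝟙 W)) (𝟙 Z)) k1 k2,
    map_mul, ← T.pull_comp, ← T.pull_comp, ← T.pull_comp, e1, e2, e3]

/-- The class of the diagonal is invariant under automorphisms. -/
lemma pull_dg (f : X ⟶ X) (g : X ⟶ X) (h1 : f ≫ g = 𝟙 X) (h2 : g ≫ f = 𝟙 X) :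
    T.pull (prodMap f f) (dg T X) = dg T X := by
  have k1 : prodMap f f ≫ prodMap g g = 𝟙 _ := by
    rw [prodMap_comp, h1]
    apply prod_ext <;> simp
  have k2 : prodMap g g ≫ prodMap f f = 𝟙 _ := by
    rw [prodMap_comp, h2]
    apply prod_ext <;> simp
  have e1 : Obj.lift (𝟙 X) (𝟙 X) ≫ prodMap g g = g ≫ Obj.lift (𝟙 X) (𝟙 X) := by
    apply prod_ext <;> simp [comp_lift]
  have h3 : T.push g 1 = 1 := hI.push_one g f h2 h1
  rw [pull_iso T (prodMap f f) (prodMap g g) k1 k2, dg, TheoryData.graph, ← T.push_comp, e1,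
    T.push_comp, h3]

end theory

section chow

variable {C : TheoryData.{u, v, 0} 𝒱 ℚ} [hC : IsChowProj C] {X Y Z W V P : 𝒱.Obj}

include hC

/-- The power `e × ⋯ × e`, a self-correspondence of the power. -/
noncomputable def epow {n : ℕ} (pr : Fin n → (P ⟶ X)) (e : C.A (X.prod X)) : C.A (P.prod P) :=
  ∏ i, ev e (fst P P ≫ pr i) (snd P P ≫ pr i)

/-- The self-correspondence of the power given by a permutation. -/
noncomputable def IsPow.G {n : ℕ} {pr : Fin n → (P ⟶ X)} (h : IsPow pr)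
    (σ : Equiv.Perm (Fin n)) : C.A (P.prod P) :=
  C.pull (prodMap (𝟙 P) (h.perm σ)) (dg C P)

lemma IsPow.G_mul_eq {n : ℕ} {pr : Fin n → (P ⟶ X)} (h : IsPow pr)
    (σ : Equiv.Perm (Fin n)) (Γ : C.A (P.prod P)) :
    C.comp Γ (h.G σ) = C.pull (prodMap (𝟙 P) (h.perm σ)) Γ := by
  have h1 := comp_pullR C (X := P) (Y := P) (Z := P) (W := P) Γ (dg C P) (h.perm σ) (h.perm σ⁻¹)
    (h.perm_inv σ) (h.perm_inv' σ)
  rw [comp_dg] at h1
  exact h1

lemma IsPow.mul_G_eq {n : ℕ} {pr : Fin n → (P ⟶ X)} (h : IsPow pr)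
    (σ : Equiv.Perm (Fin n)) (Γ : C.A (P.prod P)) :
    C.comp (h.G σ) Γ = C.pull (prodMap (h.perm σ⁻¹) (𝟙 P)) Γ := by
  have h0 : C.pull (prodMap (𝟙 P) (h.perm σ)) (dg C P) =
      C.pull (prodMap (h.perm σ⁻¹) (𝟙 P)) (dg C P) := by
    conv_lhs => rw [← pull_dg C (h.perm σ⁻¹) (h.perm σ) (h.perm_inv' σ) (h.perm_inv σ)]
    rw [← C.pull_comp, prodMap_comp, h.perm_inv, Category.id_comp]
  have h1 := comp_pullL C (X := P) (Y := P) (Z := P) (W := P) Γ (dg C P) (h.perm σ⁻¹) (h.perm σ)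
    (h.perm_inv' σ) (h.perm_inv σ)
  rw [dg_comp, ← h0] at h1
  exact h1

lemma IsPow.G_mul {n : ℕ} {pr : Fin n → (P ⟶ X)} (h : IsPow pr)
    (σ τ : Equiv.Perm (Fin n)) : C.comp (h.G τ) (h.G σ) = h.G (σ * τ) := by
  rw [h.G_mul_eq]
  unfold IsPow.G
  rw [← C.pull_comp, prodMap_comp, Category.comp_id, h.perm_comp]

lemma IsPow.G_mul_epow {n : ℕ} {pr : Fin n → (P ⟶ X)} (h : IsPow pr)
    (σ : Equiv.Perm (Fin n)) (e : C.A (X.prod X)) : C.comp (epow pr e) (h.G σ) =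
      ∏ i, ev e (fst P P ≫ pr i) (snd P P ≫ pr (σ i)) := by
  rw [h.G_mul_eq]
  unfold epow
  rw [map_prod]
  apply Finset.prod_congr rfl
  intro i _
  rw [pull_ev, prodMap_fst_assoc, prodMap_snd_assoc, h.perm_pr, Category.id_comp]

lemma IsPow.epow_mul_G {n : ℕ} {pr : Fin n → (P ⟶ X)} (h : IsPow pr)
    (σ : Equiv.Perm (Fin n)) (e : C.A (X.prod X)) : C.comp (h.G σ) (epow pr e) =
      C.comp (epow pr e) (h.G σ) := by
  rw [h.G_mul_epow, h.mul_G_eq]
  unfold epow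
  rw [map_prod, ← Equiv.prod_comp σ]
  apply Finset.prod_congr rfl
  intro i _
  rw [pull_ev, prodMap_fst_assoc, prodMap_snd_assoc, h.perm_pr, Category.id_comp]
  congr 3
  exact σ.symm_apply_apply i

/-- The determinant of an idempotent at the universal points is, up to a factor, idempotent. -/
lemma IsPow.gd_mul {n : ℕ} {pr : Fin n → (P ⟶ X)} (h : IsPow pr) (s : Bool)
    {e : C.A (X.prod X)} (he : C.comp (epow pr e) (epow pr e) = epow pr e) {D : Cor C P}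
    (hD : D = gd s (fun _ _ => e) (fun i => fst P P ≫ pr i) (fun i => snd P P ≫ pr i)) :
    D * D = (Fintype.card (Equiv.Perm (Fin n)) : ℕ) • D := by
  let G : Equiv.Perm (Fin n) → Cor C P := fun σ => h.G σ
  let E : Cor C P := epow pr e
  have hG : ∀ σ τ, G σ * G τ = G (σ * τ) := fun σ τ => h.G_mul σ τ
  have hGE : ∀ σ, E * G σ = G σ * E := fun σ => h.epow_mul_G σ e
  have hE : E * E = E := he
  have h1 : D = ∑ σ : Equiv.Perm (Fin n), wt s σ • (G σ * E) := by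
    rw [hD, gd]
    apply Finset.sum_congr rfl
    intro σ _
    have h2 : G σ * E = (∏ i, ev e (fst P P ≫ pr i) (snd P P ≫ pr (σ i)) : C.A (P.prod P)) :=
      h.G_mul_epow σ e
    rw [h2]
    rfl
  have h2 : ∀ σ τ : Equiv.Perm (Fin n), (G σ * E) * (G τ * E) = G (σ * τ) * E := by
    intro σ τ
    rw [mul_assoc, ← mul_assoc E, hGE, mul_assoc (G τ), hE, ← mul_assoc, hG]
  have h3 : D * D = ∑ σ : Equiv.Perm (Fin n), ∑ τ : Equiv.Perm (Fin n),
      wt s (σ * τ) • (G (σ * τ) * E) := by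
    conv_lhs => rw [h1]
    rw [Finset.sum_mul_sum]
    apply Finset.sum_congr rfl
    intro σ _
    apply Finset.sum_congr rfl
    intro τ _
    rw [smul_mul_smul_comm, h2, wt_mul]
  rw [h3]
  have h4 : ∀ σ : Equiv.Perm (Fin n), ∑ τ : Equiv.Perm (Fin n),
      wt s (σ * τ) • (G (σ * τ) * E) = D := by
    intro σ
    rw [h1]
    exact Equiv.sum_comp (Equiv.mulLeft σ) (fun τ => wt s τ • (G τ * E))
  rw [Finset.sum_congr rfl (fun σ _ => h4 σ), Finset.sum_const, Finset.card_univ]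

end chow

section weil

variable {C : TheoryData.{u, v, 0} 𝒱 ℚ} [hC : IsChowProj C] {K : Type w} [Field K]
  {H : WeilTheoryData.{u, v, w} C K} [hH : IsWeilProj H] {X Y Z W P : 𝒱.Obj}

include hC hH

/-- The existence of powers. -/
lemma exists_pow {X : 𝒱.Obj} {π : ℕ → C.A (X.prod X)} (hπ : IsCK H X π) (n : ℕ) :
    ∃ (P : 𝒱.Obj) (pr : Fin (n + 1) → (P ⟶ X)), IsPow pr ∧ P.dim = (n + 1) * X.dim ∧
      (∃ ρ, IsCK H P ρ) ∧ ∀ e : C.A (X.prod X), C.comp e e = e →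
        C.comp (epow pr e) (epow pr e) = epow pr e := by
  induction n with
  | zero =>
    refine ⟨X, fun _ => 𝟙 X, isPow_one X, by ring, ⟨π, hπ⟩, fun e he => ?_⟩
    have h1 : epow (fun _ : Fin (0 + 1) => 𝟙 X) e = e := by
      unfold epow
      rw [Fin.prod_univ_succ, Fin.prod_univ_zero, mul_one, Category.comp_id, Category.comp_id,
        ev_univ]
    rw [h1, he]
  | succ n ih =>
    obtain ⟨P, pr, h, hd, ⟨ρ, hρ⟩, hE⟩ := ih
    refine ⟨X.prod P, consPr pr, h.succ, ?_, ⟨_, hπ.prod hρ⟩, fun e he => ?_⟩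
    · rw [dim_prod, hd]; ring
    · have h1 : epow (consPr pr) e = tens C e (epow pr e) := by
        unfold epow
        rw [Fin.prod_univ_succ, tens, map_prod]
        congr 1
        apply Finset.prod_congr rfl
        intro i _
        rw [pull_ev, prodMap_fst_assoc, prodMap_snd_assoc, consPr_succ]
      rw [h1, tens_comp', he, hE e he]

end weil

end Pool.Agent.Y110
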