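import Pool.Agent.Y110.Gc
import Pool.Agent.Y110.Pow

/-!
# Vanishing of the classes of (anti)symmetrizations
-/

open CategoryTheory AlgebraicGeometry

universe u v w

namespace Pool.Agent.Y110

open Pool.Agent.H914 Pool.Agent.H914.VarClass Pool.Agent.H914.VarClass.Obj Pool.Agent.W492.BB
  Pool.Agent.W550.Corr Pool.Agent.TH133 Pool.Agent.TH829.Prime Pool.Agent.TH829.Kim

set_option linter.unusedSectionVars false

variable {k : Type u} [Field k] {𝒱 : VarClass k}

/-! ### Algebra -/

section algebra

lemma prod_swap {R : Type*} [CommRing R] {n : ℕ} (c c' : Fin n → R) {i j : Fin n} (hij : i ≠ j)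
    (h : ∀ l, l ≠ i → l ≠ j → c' l = c l) {ε : ℤ} (h2 : c' i * c' j = ε • (c i * c j)) :
    ∏ l, c' l = ε • ∏ l, c l := by
  have key : ∀ d : Fin n → R, ∏ l, d l = (d i * d j) * ∏ l ∈ (Finset.univ.erase i).erase j, d l := by
    intro d
    rw [← Finset.mul_prod_erase Finset.univ d (Finset.mem_univ i),
      ← Finset.mul_prod_erase (Finset.univ.erase i) d
        (Finset.mem_erase.2 ⟨hij.symm, Finset.mem_univ j⟩), mul_assoc]
  rw [key c', key c, h2, smul_mul_assoc]
  congr 2
  apply Finset.prod_congr rfl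
  intro l hl
  rw [Finset.mem_erase, Finset.mem_erase] at hl
  exact h l hl.2.1 hl.1

/-- The same statement for pairwise commuting elements of a ring. -/
lemma list_swap {K A : Type*} [Field K] [Ring A] [Algebra K A] (S : Set A)
    (hS : ∀ a ∈ S, ∀ b ∈ S, a * b = b * a) {n : ℕ} (c c' : Fin n → A) (hc : ∀ l, c l ∈ S)
    (hc' : ∀ l, c' l ∈ S) {i j : Fin n} (hij : i ≠ j)
    (h : ∀ l, l ≠ i → l ≠ j → c' l = c l) {ε : ℤ} (h2 : c' i * c' j = ε • (c i * c j)) :
    (List.ofFn c').prod = ε • (List.ofFn c).prod := by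
  letI : CommRing (Algebra.adjoin K S) := Algebra.adjoinCommRingOfComm K hS
  let d : Fin n → Algebra.adjoin K S := fun l => ⟨c l, Algebra.subset_adjoin (hc l)⟩
  let d' : Fin n → Algebra.adjoin K S := fun l => ⟨c' l, Algebra.subset_adjoin (hc' l)⟩
  have h3 : ∏ l, d' l = ε • ∏ l, d l := by
    apply prod_swap d d' hij
    · intro l h4 h5
      exact Subtype.ext (h l h4 h5)
    · apply Subtype.ext
      exact h2
  have key : ∀ (f : Fin n → A) (g : Fin n → Algebra.adjoin K S), (∀ l, (g l : A) = f l) →
      (List.ofFn f).prod = ((∏ l, g l : Algebra.adjoin K S) : A) := by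
    intro f g hfg
    rw [← List.prod_ofFn]
    have h4 : (((List.ofFn g).prod : Algebra.adjoin K S) : A) =
        ((List.ofFn g).map (Algebra.adjoin K S).val).prod := map_list_prod (Algebra.adjoin K S).val _
    rw [h4, List.map_ofFn]
    congr 2
    funext l
    exact (hfg l).symm
  rw [key c d (fun _ => rfl), key c' d' (fun _ => rfl), h3]
  rfl

end algebra

section weil

variable {C : TheoryData.{u, v, 0} 𝒱 ℚ} [hC : IsChowProj C] {K : Type w} [Field K]
  {H : WeilTheoryData.{u, v, w} C K} [hH : IsWeilProj H] {X Y Z W P : 𝒱.Obj}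

/-- The parity of a degree, `true` for even degrees. -/
def Par (s : Bool) (i : ℤ) : Prop := if s then Even i else Odd i

lemma gc_even (hg : GradedCommutative H) {i j : ℤ} {a b : H.A W} (ha : a ∈ H.gr W i)
    (hb : b ∈ H.gr W j) (h : Even (i * j)) : a * b = b * a := by
  have h1 := hg W i j a b ha hb
  rw [Int.negOnePow_even _ h, one_smul] at h1
  exact h1

lemma gc_odd (hg : GradedCommutative H) {i j : ℤ} {a b : H.A W} (ha : a ∈ H.gr W i)
    (hb : b ∈ H.gr W j) (h : Odd (i * j)) : a * b = -(b * a) := by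
  have h1 := hg W i j a b ha hb
  rw [Int.negOnePow_odd _ h] at h1
  rw [show a * b = H.mul a b from rfl, h1]
  simp

include hC hH

lemma comp_ext_act (u v : H.A X) (Γ : C.A (X.prod X)) :
    H.comp (H.ext u v) (H.cl Γ) = H.ext u (H.act (H.cl Γ) v) := by
  rw [comp_eq_extR, H.extR_ext]
  intro c
  rw [← H.cl_pull, H.cl_central]

variable (H) in
/-- The Kunneth decomposition of the class of the diagonal. -/
lemma exists_kunneth (X : 𝒱.Obj) :
    ∃ (m : ℕ) (p : Fin m → ℤ) (u v : Fin m → H.A X),
      (∀ i, u i ∈ H.gr X (p i)) ∧ (∀ i, v i ∈ H.gr X (2 * X.dim - p i)) ∧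
      H.cl (dg C X) = ∑ i, H.ext (u i) (v i) := by
  have h1 := H.kunneth X X _ (H.cl_mem (dg_mem C X))
  obtain ⟨m, f, g, hfg⟩ := Submodule.mem_span_set'.1 h1
  choose p u v hu hv huv using fun i => (g i).2
  refine ⟨m, p, fun i => f i • u i, v, fun i => Submodule.smul_mem _ _ (hu i), hv, ?_⟩
  rw [← hfg]
  apply Finset.sum_congr rfl
  intro i _
  rw [huv i, TheoryData.ext, map_smul, smul_mul_assoc]

/-- The class of the (anti)symmetrization of a correspondence whose Kunneth components have the
right parity vanishes if there are many factors. -/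
lemma cl_gd_eq_zero (hg : GradedCommutative H) (s : Bool) {e : C.A (X.prod X)} {m : ℕ}
    {p q : Fin m → ℤ} {u v : Fin m → H.A X} (hu : ∀ i, u i ∈ H.gr X (p i))
    (hv : ∀ i, v i ∈ H.gr X (q i)) (hp : ∀ i, Par s (p i)) (hq : ∀ i, Par s (q i))
    (he : H.cl e = ∑ i, H.ext (u i) (v i)) {n : ℕ} (hn : m < n) (x y : Fin n → (W ⟶ X)) :
    H.cl (gd s (fun _ _ => e) x y) = 0 := by
  set S : Set (H.A W) := {a | ∃ i : ℤ, Even i ∧ a ∈ H.gr W i} with hS
  have hcomm : ∀ a ∈ S, ∀ b ∈ S, a * b = b * a := by
    rintro a ⟨i, hi, ha⟩ b ⟨j, hj, hb⟩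
    exact gc_even hg ha hb (hi.mul_right j)
  let a : Fin n → Fin m → H.A W := fun i k => H.pull (x i) (u k)
  let b : Fin n → Fin m → H.A W := fun i k => H.pull (y i) (v k)
  have ha : ∀ i k, a i k ∈ H.gr W (p k) := fun i k => H.pull_mem _ (hu k)
  have hb : ∀ i k, b i k ∈ H.gr W (q k) := fun i k => H.pull_mem _ (hv k)
  have hab : ∀ i j k l, a i k * b j l ∈ S := by
    intro i j k l
    refine ⟨p k + q l, ?_, H.mul_mem (ha i k) (hb j l)⟩
    have h1 := hp k
    have h2 := hq l
    unfold Par at h1 h2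
    split_ifs at h1 h2
    · exact h1.add h2
    · exact h1.add_odd h2
  -- the class of an entry
  have hev : ∀ i j, H.cl (ev e (x i) (y j)) = ∑ k, a i k * b j k := by
    intro i j
    rw [ev, H.cl_pull, he, map_sum]
    apply Finset.sum_congr rfl
    intro k _
    rw [TheoryData.ext, map_mul, ← H.pull_comp, ← H.pull_comp, lift_fst, lift_snd]
  have hcl : H.cl (gd s (fun _ _ => e) x y) = ∑ σ : Equiv.Perm (Fin n),
      ∑ f : Fin n → Fin m, wt s σ • (List.ofFn fun i => a i (f i) * b (σ i) (f i)).prod := by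
    rw [gd, map_sum]
    apply Finset.sum_congr rfl
    intro σ _
    rw [map_zsmul, ← Finset.smul_sum]
    congr 1
    rw [← List.prod_ofFn, map_list_prod, List.map_ofFn]
    have h1 : ((H.cl : C.A W →+* H.A W) ∘ fun i => ev e (x i) (y (σ i))) =
        fun i => ∑ k, a i k * b (σ i) k := by
      funext i
      exact hev i (σ i)
    rw [h1]
    have h2 := (MultilinearMap.mkPiAlgebraFin K n (H.A W)).map_sum
      (fun i k => a i k * b (σ i) k)
    simp only [MultilinearMap.mkPiAlgebraFin_apply] at h2
    exact h2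
  rw [hcl, Finset.sum_comm]
  apply Finset.sum_eq_zero
  intro f _
  obtain ⟨i, j, hij, hf⟩ := Fintype.exists_ne_map_eq_of_card_lt f (by simpa using hn)
  refine Finset.sum_involution (fun σ _ => σ * Equiv.swap i j) ?_ ?_ ?_ ?_
  · intro σ _
    have h1 : (List.ofFn fun l => a l (f l) * b ((σ * Equiv.swap i j) l) (f l)).prod =
        (if s then 1 else (-1 : ℤ)) • (List.ofFn fun l => a l (f l) * b (σ l) (f l)).prod := by
      apply list_swap (K := K) S hcomm _ _ (fun l => hab _ _ _ _) (fun l => hab _ _ _ _) hij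
      · intro l h2 h3
        rw [Equiv.Perm.mul_apply, Equiv.swap_apply_of_ne_of_ne h2 h3]
      · rw [Equiv.Perm.mul_apply, Equiv.Perm.mul_apply, Equiv.swap_apply_left,
          Equiv.swap_apply_right, hf]
        set A := a i (f j) with hA
        set A' := a j (f j) with hA'
        set B := b (σ i) (f j) with hB
        set B' := b (σ j) (f j) with hB'
        have h2 := hp (f j)
        have h3 := hq (f j)
        unfold Par at h2 h3
        by_cases hs : s = true
        · rw [if_pos hs] at h2 h3 ⊢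
          have e1 : B' * A' = A' * B' := gc_even hg (hb _ _) (ha _ _) (h3.mul_right _)
          have e2 : B' * B = B * B' := gc_even hg (hb _ _) (hb _ _) (h3.mul_right _)
          have e3 : A' * B = B * A' := gc_even hg (ha _ _) (hb _ _) (h2.mul_right _)
          rw [one_smul]
          calc A * B' * (A' * B) = A * (B' * A') * B := by simp only [mul_assoc]
            _ = A * A' * (B' * B) := by rw [e1]; simp only [mul_assoc]
            _ = A * (A' * B) * B' := by rw [e2]; simp only [mul_assoc]
            _ = A * B * (A' * B') := by rw [e3]; simp only [mul_assoc]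
        · rw [if_neg hs] at h2 h3 ⊢
          have e1 : B' * A' = -(A' * B') := gc_odd hg (hb _ _) (ha _ _) (h3.mul h2)
          have e2 : B' * B = -(B * B') := gc_odd hg (hb _ _) (hb _ _) (h3.mul h3)
          have e3 : A' * B = -(B * A') := gc_odd hg (ha _ _) (hb _ _) (h2.mul h3)
          calc A * B' * (A' * B) = A * (B' * A') * B := by simp only [mul_assoc]
            _ = -(A * A' * (B' * B)) := by rw [e1]; simp only [mul_neg, neg_mul, mul_assoc]
            _ = A * (A' * B) * B' := by
              rw [e2]; simp only [mul_neg, neg_neg, mul_assoc]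
            _ = -(A * B * (A' * B')) := by rw [e3]; simp only [mul_neg, neg_mul, mul_assoc]
            _ = (-1 : ℤ) • (A * B * (A' * B')) := by rw [neg_one_zsmul]
    rw [h1, wt_mul]
    have h2 : wt s (Equiv.swap i j) = if s then -1 else 1 := by
      unfold wt
      split_ifs
      · rw [Equiv.Perm.sign_swap hij]; rfl
      · rfl
    rw [h2]
    by_cases hs : s = true
    · rw [if_pos hs, if_pos hs, one_smul, mul_neg, mul_one, neg_smul, add_neg_cancel]
    · rw [if_neg hs, if_neg hs, mul_one, neg_one_zsmul, smul_neg, add_neg_cancel]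
  · intro σ _ _ h1
    have h2 : Equiv.swap i j = 1 := mul_left_cancel (a := σ) (by rw [h1, mul_one])
    exact hij (Equiv.swap_eq_one_iff.1 h2)
  · intro σ _
    exact Finset.mem_univ _
  · intro σ _
    simp [mul_assoc]

end weil

end Pool.Agent.Y110
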