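import Pool.Agent.Y110.Phantom
import Pool.Agent.Y110.Van
import Pool.Agent.TH829.Kim.Main

/-!
# Kimura finiteness, phantoms and nilpotence
-/

open CategoryTheory AlgebraicGeometry

universe u v w

namespace Pool.Agent.Y110

open Pool.Agent.H914 Pool.Agent.H914.VarClass Pool.Agent.H914.VarClass.Obj Pool.Agent.W492.BB
  Pool.Agent.W550.Corr Pool.Agent.TH133 Pool.Agent.TH829.Prime Pool.Agent.TH829.Kim

set_option linter.unusedSectionVars false

variable {k : Type u} [Field k] {𝒱 : VarClass k} {C : TheoryData.{u, v, 0} 𝒱 ℚ}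
  [hC : IsChowProj C] {K : Type w} [Field K]
  {H : WeilTheoryData.{u, v, w} C K} [hH : IsWeilProj H] {X Y Z W P : 𝒱.Obj}

/-- The complementary parity is the negation. -/
lemma par_not (s : Bool) (i : ℤ) : Par (!s) i ↔ ¬ Par s i := by
  unfold Par
  cases s
  · simp
  · simp

open Classical in
/-- The sum of the even (odd) members of a decomposition. -/
noncomputable def parPart (s : Bool) (π : ℕ → C.A (X.prod X)) : C.A (X.prod X) :=
  ∑ i ∈ (Finset.range (2 * X.dim + 1)).filter (fun i : ℕ => Par s i), π i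

include hC hH

variable (H) in
lemma one_ne (X : 𝒱.Obj) : (1 : C.A X) ≠ 0 := by
  intro h
  have h4 : (1 : H.A X) = 0 := by rw [← map_one H.cl, h, map_zero]
  exact hH.one_ne_zero X h4

lemma parPart_mem {π : ℕ → C.A (X.prod X)} (hπ : IsCK H X π) (s : Bool) :
    parPart s π ∈ C.gr (X.prod X) X.dim := Submodule.sum_mem _ fun i _ => hπ.deg i

lemma parPart_idem {π : ℕ → C.A (X.prod X)} (hπ : IsCK H X π) (s : Bool) :
    C.comp (parPart s π) (parPart s π) = parPart s π := by
  classical
  unfold parPart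
  rw [comp_sum]
  apply Finset.sum_congr rfl
  intro i hi
  rw [sum_comp]
  simp_rw [hπ.comp_eq]
  rw [Finset.sum_ite_eq' _ i (fun j => π j), if_pos hi]

lemma parPart_add {π : ℕ → C.A (X.prod X)} (hπ : IsCK H X π) (s : Bool) :
    parPart s π + parPart (!s) π = dg C X := by
  classical
  unfold parPart
  have h1 : (Finset.range (2 * X.dim + 1)).filter (fun i : ℕ => Par (!s) i) =
      (Finset.range (2 * X.dim + 1)).filter (fun i : ℕ => ¬ Par s i) :=
    Finset.filter_congr fun i _ => par_not s i
  rw [h1, ← hπ.sum, Finset.sum_filter_add_sum_filter_not]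

open Classical in
lemma act_parPart {π : ℕ → C.A (X.prod X)} (hπ : IsCK H X π) (s : Bool) {q : ℤ} {a : H.A X}
    (ha : a ∈ H.gr X q) : H.act (H.cl (parPart s π)) a = if Par s q then a else 0 := by
  by_cases ha0 : a = 0
  · rw [ha0, TheoryData.act_map_zero]
    split_ifs <;> rfl
  have hq := nonneg_of_mem H ha ha0
  obtain ⟨q, rfl⟩ := Int.eq_ofNat_of_zero_le hq
  have hq2 : q ≤ 2 * X.dim := by
    by_contra h
    rw [gr_top H (by omega)] at ha
    exact ha0 ((Submodule.mem_bot _).1 ha)
  unfold parPart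
  rw [map_sum, act_sum]
  have h1 : ∀ i ∈ (Finset.range (2 * X.dim + 1)).filter (fun i : ℕ => Par s i),
      H.act (H.cl (π i)) a = if q = i then a else 0 := by
    intro i _
    rw [hπ.actH_eq i q ha]
    by_cases h2 : q = i
    · rw [if_pos h2, if_pos (by exact_mod_cast h2)]
    · rw [if_neg h2, if_neg (by exact_mod_cast h2)]
  rw [Finset.sum_congr rfl h1, Finset.sum_ite_eq]
  by_cases h2 : Par s (q : ℤ)
  · rw [if_pos h2, if_pos (Finset.mem_filter.2 ⟨Finset.mem_range.2 (by omega), h2⟩)]
  · have h3 : q ∉ (Finset.range (2 * X.dim + 1)).filter (fun i : ℕ => Par s i) :=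
      fun h3 => h2 (Finset.mem_filter.1 h3).2
    rw [if_neg h2, if_neg h3]

/-- The Kunneth decomposition of the classes of the even and the odd parts. -/
lemma cl_parPart {π : ℕ → C.A (X.prod X)} (hπ : IsCK H X π) :
    ∃ m : ℕ, ∀ s : Bool, ∃ (p q : Fin m → ℤ) (u v : Fin m → H.A X),
      (∀ i, u i ∈ H.gr X (p i)) ∧ (∀ i, v i ∈ H.gr X (q i)) ∧ (∀ i, Par s (p i)) ∧
      (∀ i, Par s (q i)) ∧ H.cl (parPart s π) = ∑ i, H.ext (u i) (v i) := by
  classical
  obtain ⟨m, p, u, v, hu, hv, huv⟩ := exists_kunneth H X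
  refine ⟨m, fun s => ?_⟩
  have hpar : ∀ i, Par s (2 * X.dim - p i) ↔ Par s (p i) := by
    intro i
    unfold Par
    cases s
    · simp only [Bool.false_eq_true, if_false]
      rw [Int.odd_sub, Int.odd_mul]
      have : ¬ Odd (2 : ℤ) := by decide
      simp only [this, false_and, false_iff, Int.not_even_iff_odd]
    · simp only [if_true]
      rw [Int.even_sub]
      simp
  let c : ℤ := if s then 0 else 1
  have hc : Par s c := by
    unfold Par c
    cases s
    · simp
    · simp
  refine ⟨fun i => if Par s (p i) then p i else c,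
    fun i => if Par s (p i) then 2 * X.dim - p i else c,
    fun i => if Par s (p i) then u i else 0, fun i => if Par s (p i) then v i else 0,
    fun i => ?_, fun i => ?_, fun i => ?_, fun i => ?_, ?_⟩
  · dsimp only
    split_ifs
    · exact hu i
    · exact Submodule.zero_mem _
  · dsimp only
    split_ifs
    · exact hv i
    · exact Submodule.zero_mem _
  · dsimp only
    split_ifs with h
    · exact h
    · exact hc
  · dsimp only
    split_ifs with h
    · exact (hpar i).2 h
    · exact hc
  · have h1 : H.cl (parPart s π) = H.comp (H.cl (dg C X)) (H.cl (parPart s π)) := by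
      rw [cl_dg, dg_comp]
    rw [h1, huv, sum_comp]
    apply Finset.sum_congr rfl
    intro i _
    rw [comp_ext_act, act_parPart hπ s (hv i)]
    by_cases h : Par s (p i)
    · rw [if_pos ((hpar i).2 h)]
      simp only [if_pos h]
    · rw [if_neg (fun h' => h ((hpar i).1 h'))]
      simp only [if_neg h]
      rw [TheoryData.ext_zero_right, TheoryData.ext_zero_right]

/-- If no power of `X` has phantoms then the motive of `X` is finite-dimensional. -/
theorem isKimuraFinite_of_noPhantoms (hg : GradedCommutative H) {π : ℕ → C.A (X.prod X)}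
    (hπ : IsCK H X π) (h : ∀ Y : 𝒱.Obj, (∃ ρ, IsCK H Y ρ) → NoPhantoms H Y) :
    IsKimuraFinite C (ratFam C) X := by
  obtain ⟨m, hm⟩ := cl_parPart hπ
  have hdies : ∀ s : Bool, Dies (ratFam C) s (ofA (parPart s π) (parPart_mem hπ s)) (m + 1) := by
    intro s
    obtain ⟨p, q, u, v, hu, hv, hp, hq, huv⟩ := hm s
    obtain ⟨P, pr, hP, hdim, hρ, hE⟩ := exists_pow hπ m
    set e := parPart s π with he
    let x : Fin (m + 1) → (P.prod P ⟶ X) := fun i => fst P P ≫ pr i
    let y : Fin (m + 1) → (P.prod P ⟶ X) := fun i => snd P P ≫ pr i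
    let D0 : C.A (P.prod P) := gd s (fun _ _ => e) x y
    let D : Cor C P := D0
    have hDD := hP.gd_mul s (hE e (parPart_idem hπ s)) (D := D) rfl
    set N : ℕ := Fintype.card (Equiv.Perm (Fin (m + 1))) with hN
    have hN0 : (N : ℚ) ≠ 0 := by
      have : 0 < N := Fintype.card_pos
      positivity
    have hDD' : D * D = (N : ℚ) • D := by rw [hDD, Nat.cast_smul_eq_nsmul]
    let p' : Cor C P := (N : ℚ)⁻¹ • D
    have hpp : p' * p' = p' := by
      simp only [p']
      rw [smul_mul_smul_comm, hDD', smul_smul, mul_assoc, inv_mul_cancel₀ hN0, mul_one]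
    have hDm : (D : C.A (P.prod P)) ∈ C.gr (P.prod P) P.dim := by
      have h1 := gd_mem s (ofA e (parPart_mem hπ s)) x y
      have h2 : ((m + 1 : ℕ) : ℤ) * X.dim = P.dim := by rw [hdim]; push_cast; ring
      rw [h2] at h1
      exact h1
    have hcl : H.cl D0 = 0 :=
      cl_gd_eq_zero hg s hu hv hp hq huv (Nat.lt_succ_self m) x y
    have hp0 : (p' : C.A (P.prod P)) = 0 := by
      apply h P hρ (p' : C.A (P.prod P))
      · exact Submodule.smul_mem _ _ hDm
      · exact hpp
      · change H.cl ((N : ℚ)⁻¹ • D0) = 0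
        rw [← one_mul D0, ← smul_mul_assoc, map_mul, hcl, mul_zero]
    have hD0 : D0 = 0 := by
      have h0 : (N : ℚ)⁻¹ • D0 = 0 := hp0
      rw [← one_smul ℚ D0, ← mul_inv_cancel₀ hN0, mul_smul, h0, smul_zero]
    intro W x' y'
    obtain ⟨g1, h1⟩ := hP.exists_lift W x'
    obtain ⟨g2, h2⟩ := hP.exists_lift W y'
    have h3 := pull_gd s (Obj.lift g1 g2) (fun _ _ => e) x y
    have h4 : gd s (fun _ _ => e) x y = 0 := hD0
    rw [h4, map_zero] at h3
    have h5 : (fun i => Obj.lift g1 g2 ≫ x i) = x' := by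
      funext i
      simp only [x]
      rw [lift_fst_assoc, h1]
    have h6 : (fun i => Obj.lift g1 g2 ≫ y i) = y' := by
      funext i
      simp only [y]
      rw [lift_snd_assoc, h2]
    rw [h5, h6] at h3
    change gd s (fun _ _ => e) x' y' ∈ (⊥ : Submodule ℚ (C.A W))
    rw [← h3]
    exact Submodule.zero_mem _
  rw [isKimuraFinite_iff]
  refine ⟨ofA (parPart true π) (parPart_mem hπ true), ?_, ⟨m, hdies true⟩, ⟨m, ?_⟩⟩
  · have h1 : toA (ofA (parPart true π) (parPart_mem hπ true) *
        ofA (parPart true π) (parPart_mem hπ true) -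
        ofA (parPart true π) (parPart_mem hπ true)) = (0 : C.A (X.prod X)) := by
      rw [map_sub, toA_mul, toA_ofA, parPart_idem hπ, sub_self]
    rw [h1]
    exact Submodule.zero_mem _
  · have h1 : 1 - ofA (parPart true π) (parPart_mem hπ true) =
        ofA (parPart false π) (parPart_mem hπ false) := by
      apply toA_inj
      rw [map_sub, toA_one, toA_ofA, toA_ofA, ← parPart_add hπ true, Bool.not_true,
        add_sub_cancel_left]
    rw [h1]
    exact hdies false

/-- If the motive of `X` is finite-dimensional, then homologically trivial self-correspondences of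
degree zero are nilpotent. -/
theorem isNilpotent_of_kimura (h : IsKimuraFinite C (ratFam C) X) {x : R0 C X}
    (hx : H.cl (toA x) = 0) : IsNilpotent x := by
  obtain ⟨f, hf1, ⟨n, hf2⟩, ⟨m, hf3⟩⟩ := (isKimuraFinite_iff _ X).1 h
  have hP : IsAdequate C (ratFam C) := isAdequate_bot
  have hle : ratFam C ≤ numFam C := fun _ _ => bot_le
  have hne : ∀ X : 𝒱.Obj, (1 : C.A X) ≠ 0 := one_ne H
  have h1 : ∀ Z : 𝒱.Obj, (1 : C.A Z) ∉ ratFam C Z 0 := by
    intro Z hZ
    exact hne Z ((Submodule.mem_bot ℚ).1 hZ)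
  have hidem : mk _ hP X f * mk _ hP X f = mk _ hP X f := by
    rw [← map_mul, ← sub_eq_zero, ← map_sub]
    exact mk_eq_zero.2 hf1
  have hs : ∀ a b : RP (ratFam C) hP X, trP hne _ hP hle X (a * b) =
      trP hne _ hP hle X (b * a) := fun a b => trP_comm a b
  have hrad : InRad (trP hne _ hP hle X) (mk _ hP X x) := by
    intro γ
    obtain ⟨γ, rfl⟩ := Ideal.Quotient.mk_surjective γ
    change trP hne _ hP hle X (mk _ hP X x * mk _ hP X γ) = 0
    rw [← map_mul, trP_mk]
    have h2 : H.cl (toA (x * γ)) = 0 := by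
      rw [toA_mul, cl_comp, hx, comp_zero]
    have h3 : H.cl (ev (toA (x * γ)) (𝟙 X) (𝟙 X)) = 0 := by
      rw [ev, H.cl_pull, h2, map_zero]
    exact hasDegree_uniq (hne X) (trL_spec (hne := hne) (x * γ))
      (hasDegree_zero_of_cl H (ev_mem (toA_mem _) _ _) h3)
  have h4 := isNilpotent_of_inRad hs hidem (n := n) (m := m)
    (Dies.killed (hne := hne) h1 hf2) (by
      have := Dies.killed (hne := hne) (hP := hP) (hle := hle) h1 hf3
      rwa [map_sub, map_one] at this) hrad
  obtain ⟨N, hN⟩ := h4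
  refine ⟨N, ?_⟩
  rw [← map_pow] at hN
  apply toA_inj
  rw [map_zero]
  exact (Submodule.mem_bot ℚ).1 (mk_eq_zero.1 hN)

/-- Kimura finiteness excludes phantoms. -/
theorem noPhantoms_of_kimura (h : IsKimuraFinite C (ratFam C) X) : NoPhantoms H X := by
  intro p hp hpp hcl
  obtain ⟨N, hN⟩ := isNilpotent_of_kimura (H := H) h (x := ofA p hp) hcl
  have h1 : ofA p hp * ofA p hp = ofA p hp := toA_inj hpp
  have h2 : ∀ n, ofA p hp ^ (n + 1) = ofA p hp := by
    intro n
    induction n with
    | zero => rw [zero_add, pow_one]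
    | succ n ih => rw [pow_succ, ih, h1]
  have h3 : ofA p hp = 0 := by rw [← h2 N, pow_succ, hN, zero_mul]
  have h4 : toA (ofA p hp) = 0 := by rw [h3, map_zero]
  exact h4

end Pool.Agent.Y110
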