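import Pool.Agent.Y110.Defs2
import Pool.Agent.Y110.Phan
import Pool.Agent.Y110.Kf

/-!
# Murre's conjectures and finite-dimensionality
-/

open CategoryTheory AlgebraicGeometry

universe u v w

namespace Pool.Agent.Y110

open Pool.Agent.H914 Pool.Agent.H914.VarClass Pool.Agent.H914.VarClass.Obj Pool.Agent.W492.BB
  Pool.Agent.W550.Corr Pool.Agent.TH133 Pool.Agent.TH829.Prime Pool.Agent.TH829.Kim

set_option linter.unusedSectionVars false

variable {k : Type u} [Field k] {𝒱 : VarClass k} {C : TheoryData.{u, v, 0} 𝒱 ℚ}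
  [hC : IsChowProj C] {K : Type w} [Field K]
  {H : WeilTheoryData.{u, v, w} C K} [hH : IsWeilProj H] {X Y Z W : 𝒱.Obj}

include hC hH

/-! ### From (C) to finite-dimensionality and back -/

lemma zeroIsAll_of_C (h : ∀ X : 𝒱.Obj, Independent H X) (X : 𝒱.Obj) (i : ℕ) : ZeroIsAll H X i :=
  zeroIsAll_of_indepZero (independentZero_of (h X)) i

lemma C_of_zeroIsAll (h : ∀ (X : 𝒱.Obj) (i : ℕ), ZeroIsAll H X i) (X : 𝒱.Obj) :
    Independent H X :=
  independent_of_unipotent (unipotent_of_triangular (triangular_of_noRaising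
    (noRaising_of_zeroIsAll (h _))))

lemma triangular_of_C (h : ∀ X : 𝒱.Obj, Independent H X) (X : 𝒱.Obj) : Triangular H X :=
  triangular_of_noRaising (noRaising_of_zeroIsAll (zeroIsAll_of_C h _))

lemma noPhantoms_of_C (h : ∀ X : 𝒱.Obj, Independent H X) (X : 𝒱.Obj)
    (hX : ∃ π, IsCK H X π) : NoPhantoms H X := by
  obtain ⟨π, hπ⟩ := hX
  exact noPhantoms_of_triangular (triangular_of_C h X) hπ

lemma kimura_of_noPhantoms (hg : GradedCommutative H)
    (h : ∀ X : 𝒱.Obj, (∃ π, IsCK H X π) → NoPhantoms H X) (X : 𝒱.Obj)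
    (hX : ∃ π, IsCK H X π) : IsKimuraFinite C (ratFam C) X := by
  obtain ⟨π, hπ⟩ := hX
  exact isKimuraFinite_of_noPhantoms hg hπ h

/-- Two Chow-Kunneth decompositions of a variety with finite-dimensional motive are conjugate. -/
lemma exists_conj_of_kimura (h : IsKimuraFinite C (ratFam C) X) {π π' : ℕ → C.A (X.prod X)}
    (hπ : IsCK H X π) (hπ' : IsCK H X π') :
    ∃ s t : C.A (X.prod X), C.Deg X.dim s ∧ C.Deg X.dim t ∧
      C.comp s t = dg C X ∧ C.comp t s = dg C X ∧ H.cl (s - dg C X) = 0 ∧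
      H.cl (t - dg C X) = 0 ∧ ∀ i, π' i = C.comp (C.comp t (π i)) s := by
  apply exists_conj_of_nilpotent _ hπ hπ'
  intro x hx hcl
  obtain ⟨n, hn⟩ := isNilpotent_of_kimura (H := H) h (x := (⟨x, hx⟩ : R0 C X)) hcl
  exact ⟨n, congrArg Subtype.val hn⟩

/-- `F^0` for one decomposition and finite-dimensionality. -/
lemma zeroIsAll_of_kimura (h : ∀ X : 𝒱.Obj, (∃ π, IsCK H X π) →
    IsKimuraFinite C (ratFam C) X ∧ ∃ π, IsCK H X π ∧ ∀ i : ℕ, fil C π i 0 = C.gr X i)
    (X : 𝒱.Obj) (i : ℕ) : ZeroIsAll H X i := by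
  intro π' hπ'
  obtain ⟨hK, π, hπ, hF⟩ := h X ⟨π', hπ'⟩
  obtain ⟨s, t, hs, ht, hst, hts, -, -, hc⟩ := exists_conj_of_kimura hK hπ hπ'
  ext x
  rw [mem_fil_conj hπ hπ' hs ht hst hts hc, hF]
  constructor
  · intro h1
    have h2 : x = C.act s (C.act t x) := by rw [← C.act_comp, hts, act_dg]
    rw [h2]
    exact act_mem0 C hs h1
  · exact fun h1 => act_mem0 C ht h1

/-! ### (D) -/

lemma cl_act_zero {π : ℕ → C.A (X.prod X)} (hπ : IsCK H X π) {i j : ℕ} (hij : j ≠ 2 * i)
    {x : C.A X} (hx : x ∈ C.gr X i) : H.cl (C.act (π j) x) = 0 := by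
  rw [cl_act H]
  have h3 := H.cl_mem hx
  exact hπ.act_ne j (2 * i) _ (by omega) (by exact_mod_cast h3)

/-- The inclusion of `F^1` in the homologically trivial cycles. -/
lemma cl_eq_zero_of_fil {π : ℕ → C.A (X.prod X)} (hπ : IsCK H X π) {i : ℕ} {x : C.A X}
    (hx : x ∈ fil C π i 1) : C.Deg i x ∧ H.cl x = 0 := by
  rw [mem_fil hπ] at hx
  refine ⟨hx.1, ?_⟩
  have h1 : x = ∑ j ∈ Finset.range (2 * X.dim + 1), C.act (π j) x := by
    rw [← act_sum, hπ.sum, act_dg]
  rw [h1, map_sum]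
  apply Finset.sum_eq_zero
  intro j _
  by_cases hj : j = 2 * i
  · rw [hx.2 j (by omega), map_zero]
  · exact cl_act_zero hπ hj hx.1

lemma murreDFor_iff {π : ℕ → C.A (X.prod X)} (hπ : IsCK H X π) (i : ℕ) :
    MurreDFor H π i ↔ ∀ x : C.A X, C.Deg i x → H.cl x = 0 → ∀ j : ℕ, 2 * i ≤ j →
      C.act (π j) x = 0 := by
  constructor
  · intro h x hx hcl j hj
    have h1 := (h x).2 ⟨hx, hcl⟩
    rw [mem_fil hπ] at h1
    exact h1.2 j (by omega)
  · intro h x
    refine ⟨cl_eq_zero_of_fil hπ, fun hx => ?_⟩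
    rw [mem_fil hπ]
    exact ⟨hx.1, fun j hj => h x hx.1 hx.2 j (by omega)⟩

/-- (D) in the middle codimension of `X × X`: homologically trivial self-correspondences strictly
lower the weights. -/
lemma strictlyLowers_of_D (h : ∀ π, IsCK H (X.prod X) π → MurreDFor H π X.dim) :
    StrictlyLowers H X := by
  intro π hπ γ hγ hcl a b hab
  by_cases ha : a ≤ 2 * X.dim
  · apply comp_zero_of_prod (H := H) hπ hπ ha
    have h1 := (murreDFor_iff (hπ.dual.prod hπ) X.dim).1 (h _ (hπ.dual.prod hπ))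
    exact h1 γ hγ hcl _ (by omega)
  · rw [hπ.out a (by omega), zero_comp, zero_comp]

/-- The converse. -/
lemma D_of_strictlyLowers (h : StrictlyLowers H X) {π : ℕ → C.A (X.prod X)} (hπ : IsCK H X π)
    (i : ℕ) : MurreDFor H π i := by
  rw [murreDFor_iff hπ]
  intro x hx hcl j hj
  by_cases hi : i ≤ X.dim
  swap
  · have h1 : x = 0 := hC.gr_top X i x hx (by exact_mod_cast not_le.1 hi)
    rw [h1, TheoryData.act_map_zero]
  obtain ⟨u, hu, v, hv, huv⟩ := exists_dual_pair (C := C) (H := H) X hi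
  have hγ : C.ext v x ∈ C.gr (X.prod X) X.dim := by
    have := ext_mem (C := C) (H := H) hv hx
    rwa [sub_add_cancel] at this
  have hγcl : H.cl (C.ext v x) = 0 := by
    rw [TheoryData.ext, map_mul, H.cl_pull, H.cl_pull, hcl, map_zero, mul_zero]
  have h1 := h π hπ _ hγ hγcl (2 * i) j hj
  have h2 : C.act (C.comp (C.comp (π (2 * i)) (C.ext v x)) (π j)) u = 0 := by
    rw [h1, TheoryData.act_zero]
  rw [C.act_comp, C.act_comp, act_ext (H := H)] at h2
  have hwm : C.act (π (2 * i)) u ∈ C.gr X i := act_mem0 C (hπ.deg _) hu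
  have h3 : C.push (snd X X) (C.pull (fst X X) (v * C.act (π (2 * i)) u)) = 1 := by
    rw [← huv]
    apply deg_eq_of_cl (H := H)
    · have := C.mul_mem hv hwm
      rwa [sub_add_cancel] at this
    · have := C.mul_mem hv hu
      rwa [sub_add_cancel] at this
    · rw [map_mul, map_mul, cl_act H]
      congr 1
      have h4 := H.cl_mem hu
      exact hπ.act_self (2 * i) _ (by exact_mod_cast h4)
  rwa [h3, one_mul] at h2

/-- (D) implies `F^0 CH^i = CH^i`, for the same decomposition. -/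
lemma fil_zero_of_D {π : ℕ → C.A (X.prod X)} (hπ : IsCK H X π) {i : ℕ} (h : MurreDFor H π i) :
    fil C π i 0 = C.gr X i := by
  ext x
  rw [mem_fil hπ]
  refine ⟨fun h' => h'.1, fun hx => ⟨hx, fun j hj => ?_⟩⟩
  have h1 : C.act (π j) x ∈ C.gr X i := act_mem0 C (hπ.deg j) hx
  have h2 := (murreDFor_iff hπ i).1 h _ h1 (cl_act_zero hπ (by omega) hx) j (by omega)
  rwa [← C.act_comp, hπ.idem] at h2

lemma noPhantoms_of_strictlyLowers (h : StrictlyLowers H X) {π : ℕ → C.A (X.prod X)}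
    (hπ : IsCK H X π) : NoPhantoms H X := by
  intro p hp hpp hcl
  let P : ℕ → Cor C X := π
  have hP : IsCK H X P := hπ
  let q : Cor C X := p
  have hqq : q * q = q := hpp
  have h1 : q = 0 := by
    apply idem_zero_of_strict hP hqq
    intro a b hab
    have h2 := h π hπ p hp hcl a b hab
    have h3 : P b * (q * P a) = 0 := h2
    rw [mul_assoc]
    exact h3
  exact h1

lemma cl_act_of_cl_sub {s : C.A (X.prod X)} (hs : H.cl (s - dg C X) = 0) (x : C.A X) :
    H.cl (C.act s x) = H.cl x := by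
  have h1 : C.act s x = C.act (s - dg C X) x + x := by
    rw [TheoryData.act_sub, act_dg, sub_add_cancel]
  rw [h1, map_add, cl_act H, hs, TheoryData.act_zero, zero_add]

/-- (D) is invariant under the change of the decomposition for finite-dimensional motives. -/
lemma D_of_kimura (hK : IsKimuraFinite C (ratFam C) X) {π π' : ℕ → C.A (X.prod X)}
    (hπ : IsCK H X π) (hπ' : IsCK H X π') {i : ℕ} (h : MurreDFor H π i) :
    MurreDFor H π' i := by
  obtain ⟨s, t, hs, ht, hst, hts, -, hclt, hc⟩ := exists_conj_of_kimura hK hπ hπ'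
  intro x
  rw [mem_fil_conj hπ hπ' hs ht hst hts hc, h, cl_act_of_cl_sub hclt]
  constructor
  · rintro ⟨h1, h2⟩
    refine ⟨?_, h2⟩
    have h3 : x = C.act s (C.act t x) := by rw [← C.act_comp, hts, act_dg]
    rw [h3]
    exact act_mem0 C hs h1
  · exact fun h1 => ⟨act_mem0 C ht h1.1, h1.2⟩

lemma strictlyLowers_of_faithful (h : ∀ X : 𝒱.Obj, Independent H X) (h2 : EndFaithful H X) :
    StrictlyLowers H X := by
  intro π hπ γ hγ hcl a b hab
  rcases eq_or_lt_of_le hab with h3 | h3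
  · rw [← h3]
    exact h2 π hπ γ hγ hcl a
  · let P : ℕ → Cor C X := π
    have hP : IsCK H X P := hπ
    let q : Cor C X := γ
    have h4 : P b * q * P a = 0 := block_zero_of_triangular (triangular_of_C h X) hP hγ h3
    have h5 : P b * (q * P a) = 0 := by rw [← mul_assoc]; exact h4
    exact h5

end Pool.Agent.Y110
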