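import Pool.Agent.TH133.Defs

/-!
# Phantom idempotents: definition
-/

open CategoryTheory AlgebraicGeometry

universe u v w

namespace Pool.Agent.Y110

open Pool.Agent.H914 Pool.Agent.H914.VarClass Pool.Agent.H914.VarClass.Obj Pool.Agent.W492.BB
  Pool.Agent.W550.Corr Pool.Agent.TH133

variable {k : Type u} [Field k] {𝒱 : VarClass k}

/-- The motive of `X` has no phantoms: an idempotent self-correspondence of degree zero of `X` which
is homologically trivial is zero. -/
def NoPhantoms {C : TheoryData.{u, v, 0} 𝒱 ℚ} {K : Type w} [Field K]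
    (H : WeilTheoryData.{u, v, w} C K) (X : 𝒱.Obj) : Prop :=
  ∀ p : C.A (X.prod X), C.Deg X.dim p → C.comp p p = p → H.cl p = 0 → p = 0

end Pool.Agent.Y110
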