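import Pool.Agent.Y110.WeakDefs
import Pool.Agent.Y110.Defs2
import Pool.Agent.Y110.Phan
import Pool.Agent.Y110.Dfor
import Mathlib.RingTheory.Idempotents

/-!
# Filtrations with property 5
-/

open CategoryTheory AlgebraicGeometry

universe u v w

namespace Pool.Agent.Y110

open Pool.Agent.H914 Pool.Agent.H914.VarClass Pool.Agent.H914.VarClass.Obj Pool.Agent.W492.BB
  Pool.Agent.W550.Corr Pool.Agent.TH133 Pool.Agent.Y110.Dfor

set_option linter.unusedSectionVars false

variable {k : Type u} [Field k] {𝒱 : VarClass k} {C : TheoryData.{u, v, 0} 𝒱 ℚ}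
  [hC : IsChowProj C] {K : Type w} [Field K]
  {H : WeilTheoryData.{u, v, w} C K} [hH : IsWeilProj H] {X Y Z W : 𝒱.Obj}

omit hC in
lemma mem_mono {F : Filtration C} {i m n : ℕ} (hmn : m ≤ n) {x : C.A X} (h : F.Mem i n x) :
    F.Mem i m x := by
  induction n, hmn using Nat.le_induction with
  | base => exact h
  | succ n hn ih => exact ih (F.anti X i n h)

include hC hH

/-- Homologically trivial self-correspondences of degree zero are nilpotent. -/
lemma nilpotent_of_motivic (hK : KunnethConjecture H) {F : Filtration C}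
    (hF : IsFiniteMotivic H F) {N : Cor C X} (hN : N ∈ cor0 C X)
    (hcl : H.cl (N : C.A (X.prod X)) = 0) : IsNilpotent N := by
  obtain ⟨M, hM⟩ := hF.finite (X.prod X) X.dim
  refine ⟨M, ?_⟩
  have key : ∀ n : ℕ, F.Mem X.dim n ((N ^ n : Cor C X) : C.A (X.prod X)) := by
    intro n
    induction n with
    | zero =>
      rw [pow_zero]
      exact (hF.zero _ _ _).2 (dg_mem C X)
    | succ n ih =>
      have h1 := hF.motivic hK (X.prod X) X.dim n (tens C (dg C X) N) (by
        have h2 := tens_mem C (dg_mem C X) hN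
        have h3 : ((X.prod X).dim : ℤ) = X.dim + X.dim := by rw [dim_prod]; push_cast; ring
        rw [← h3] at h2
        exact h2) (by
        intro a _
        have h2 : H.cl (tens C (dg C X) N) = 0 := by
          rw [cl_tens, hcl]
          change H.pull _ _ * H.pull _ 0 = 0
          rw [map_zero, mul_zero]
        rw [h2, TheoryData.act_zero]) _ ih
      rw [act_tens C (ch_comm C), tp_dg, dg_comp] at h1
      rw [pow_succ']
      exact h1
  exact hM _ (key M)

/-- Under nilpotence the Kunneth conjecture gives Chow-Kunneth decompositions. -/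
lemma exists_isCK_of_nilpotent (hK : KunnethConjecture H)
    (hnil : ∀ N : Cor C X, N ∈ cor0 C X → H.cl (N : C.A (X.prod X)) = 0 → IsNilpotent N) :
    ∃ π, IsCK H X π := by
  choose κ hκ hκa using hK X
  let f : cor0 C X →+* Module.End K (H.A X) := (actH C X H).comp (cor0 C X).val.toRingHom
  have hf : ∀ a : cor0 C X, f a = actH C X H (a : Cor C X) := fun _ => rfl
  let e : Fin (2 * X.dim + 1) → Module.End K (H.A X) := fun j => actH C X H (κ j)
  have he : ∀ (j : Fin (2 * X.dim + 1)) (m : ℤ) (a : H.A X), a ∈ H.gr X m →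
      e j a = if m = (j : ℕ) then a else 0 := fun j m a ha => hκa j m a ha
  have hortho : CompleteOrthogonalIdempotents e := by
    refine ⟨⟨?_, ?_⟩, ?_⟩
    · intro j
      apply ext_gr H
      intro m a ha
      rw [Module.End.mul_apply, he j m a ha]
      split_ifs with h
      · rw [he j m a ha, if_pos h]
      · rw [map_zero]
    · intro i j hij
      apply ext_gr H
      intro m a ha
      rw [Module.End.mul_apply, he j m a ha, LinearMap.zero_apply]
      split_ifs with h
      · rw [he i m a ha, if_neg]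
        intro h2
        apply hij
        ext
        omega
      · rw [map_zero]
    · apply ext_gr H
      intro m a ha
      rw [LinearMap.sum_apply, Module.End.one_apply, Finset.sum_congr rfl
        (fun j _ => he j m a ha)]
      by_cases ha0 : a = 0
      · rw [ha0]
        apply Finset.sum_eq_zero
        intro j _
        split_ifs <;> rfl
      have hm := nonneg_of_mem H ha ha0
      obtain ⟨q, rfl⟩ := Int.eq_ofNat_of_zero_le hm
      have hq2 : q < 2 * X.dim + 1 := by
        by_contra h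
        rw [gr_top H (by omega)] at ha
        exact ha0 ((Submodule.mem_bot _).1 ha)
      rw [Finset.sum_eq_single (⟨q, hq2⟩ : Fin (2 * X.dim + 1))]
      · rw [if_pos rfl]
      · intro j _ hj
        rw [if_neg]
        intro h2
        apply hj
        ext
        change (j : ℕ) = q
        omega
      · intro h
        exact absurd (Finset.mem_univ _) h
  have hker : ∀ x ∈ RingHom.ker f, IsNilpotent x := by
    intro x hx
    rw [RingHom.mem_ker] at hx
    have h1 : H.cl ((x : Cor C X) : C.A (X.prod X)) = 0 := by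
      apply hom_zero_of_act H
      intro a
      have h2 : actH C X H (x : Cor C X) a = 0 := by rw [← hf, hx, LinearMap.zero_apply]
      exact h2
    obtain ⟨n, hn⟩ := hnil x x.2 h1
    refine ⟨n, ?_⟩
    apply Subtype.ext
    rw [SubmonoidClass.coe_pow, hn]
    rfl
  obtain ⟨e', he', hfe⟩ := CompleteOrthogonalIdempotents.lift_of_isNilpotent_ker f hker hortho
    (fun j => ⟨⟨κ j, hκ j⟩, rfl⟩)
  have hfe' : ∀ j, actH C X H (e' j : Cor C X) = e j := fun j => congrFun hfe j
  let P : ℕ → Cor C X := fun i => if h : i < 2 * X.dim + 1 then (e' ⟨i, h⟩ : Cor C X) else 0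
  have hP : ∀ (i : ℕ) (h : i < 2 * X.dim + 1), P i = (e' ⟨i, h⟩ : Cor C X) :=
    fun i h => dif_pos h
  have hP0 : ∀ (i : ℕ), ¬ i < 2 * X.dim + 1 → P i = 0 := fun i h => dif_neg h
  refine ⟨P, isCK_of (P := P) ?_ ?_ ?_ ?_ ?_⟩
  · intro i
    by_cases h : i < 2 * X.dim + 1
    · rw [hP i h]
      exact (e' ⟨i, h⟩).2
    · rw [hP0 i h]
      exact (cor0 C X).zero_mem
  · exact fun i hi => hP0 i (by omega)
  · intro i j
    by_cases h : i < 2 * X.dim + 1
    · by_cases h' : j < 2 * X.dim + 1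
      · rw [hP i h, hP j h']
        split_ifs with hij
        · subst hij
          have := he'.idem ⟨i, h⟩
          exact congrArg Subtype.val this
        · have := he'.ortho (i := ⟨i, h⟩) (j := ⟨j, h'⟩) (fun h2 => hij (Fin.mk.inj_iff.1 h2))
          exact congrArg Subtype.val this
      · rw [hP0 j h', mul_zero, if_neg (by omega)]
    · rw [hP0 i h, zero_mul]
      split_ifs <;> rfl
  · rw [Finset.sum_range]
    have h1 : ∀ i : Fin (2 * X.dim + 1), P i = (e' i : Cor C X) := fun i => hP i i.2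
    rw [Finset.sum_congr rfl (fun i _ => h1 i)]
    have h2 := congrArg Subtype.val he'.complete
    rw [AddSubmonoidClass.coe_finsetSum] at h2
    exact h2
  · intro i m a ha
    by_cases h : i < 2 * X.dim + 1
    · rw [hP i h, hfe', he _ m a ha]
    · rw [hP0 i h, map_zero, LinearMap.zero_apply]
      split_ifs with hm
      · subst hm
        rw [gr_top H (by omega)] at ha
        exact ((Submodule.mem_bot _).1 ha).symm
      · rfl

lemma kills_of_isCK {π : ℕ → C.A (X.prod X)} (hπ : IsCK H X π) {j : ℕ} {m : ℤ} (h : m ≠ j) :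
    Kills H (π j) m := fun a ha => hπ.act_ne j m a h ha

/-- The filtration is the one attached to any Chow-Kunneth decomposition. -/
lemma eq_fil (hK : KunnethConjecture H) {F : Filtration C} (hF : IsFiniteMotivic H F)
    {π : ℕ → C.A (X.prod X)} (hπ : IsCK H X π) (i n : ℕ) : F.F X i n = fil C π i n := by
  have hidem : ∀ (j : ℕ) (x : C.A X), C.act (π j) (C.act (π j) x) = C.act (π j) x := by
    intro j x
    rw [← C.act_comp, hπ.idem]
  ext x
  rw [mem_fil hπ]
  constructor
  · intro hx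
    refine ⟨F.le_gr X i n hx, fun j hj => ?_⟩
    have key : ∀ m : ℕ, F.Mem i (n + m) (C.act (π j) x) := by
      intro m
      induction m with
      | zero =>
        have h1 := hF.motivic hK X i n (π j) (hπ.deg j) (kills_of_isCK hπ (by omega)) x hx
        exact mem_mono (Nat.le_succ _) h1
      | succ m ih =>
        have h1 := hF.motivic hK X i (n + m) (π j) (hπ.deg j)
          (kills_of_isCK hπ (by push_cast; omega)) _ ih
        rw [hidem] at h1
        exact h1
    obtain ⟨N, hN⟩ := hF.finite X i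
    exact hN _ (mem_mono (Nat.le_add_left N n) (key N))
  · rintro ⟨hx, hx'⟩
    have h1 : x = ∑ j ∈ Finset.range (2 * X.dim + 1), C.act (π j) x := by
      rw [← act_sum, hπ.sum, act_dg]
    rw [h1]
    apply Submodule.sum_mem
    intro j _
    by_cases hj : 2 * (i : ℤ) - n < j
    · rw [hx' j hj]
      exact Submodule.zero_mem _
    · have key : ∀ m : ℕ, (m : ℤ) ≤ 2 * i - j → F.Mem i m (C.act (π j) x) := by
        intro m
        induction m with
        | zero =>
          intro _
          exact (hF.zero X i _).2 (act_mem0 C (hπ.deg j) hx)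
        | succ m ih =>
          intro hm
          push_cast at hm
          have h2 := hF.motivic hK X i m (π j) (hπ.deg j)
            (kills_of_isCK hπ (by omega)) _ (ih (by omega))
          rw [hidem] at h2
          exact h2
      exact key n (by omega)

/-- A finite filtration with property 5 has `F^1 = Ker cl`. -/
lemma one_iff (hK : KunnethConjecture H) {F : Filtration C} (hF : IsFiniteMotivic H F)
    (hA : ∀ X : 𝒱.Obj, ∃ π, IsCK H X π) (X : 𝒱.Obj) (i : ℕ) (x : C.A X) :
    F.Mem i 1 x ↔ C.Deg i x ∧ H.cl x = 0 := by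
  constructor
  · intro h
    obtain ⟨π, hπ⟩ := hA X
    have h1 : x ∈ F.F X i 1 := h
    rw [eq_fil hK hF hπ, Nat.cast_one] at h1
    exact cl_eq_zero_of_fil hπ h1
  · rintro ⟨hx, hcl⟩
    by_cases hi : i ≤ X.dim
    swap
    · have h1 : x = 0 := hC.gr_top X i x hx (by exact_mod_cast not_le.1 hi)
      rw [h1]
      exact Submodule.zero_mem _
    obtain ⟨u, hu, v, hv, huv⟩ := exists_dual_pair (C := C) (H := H) X hi
    have hγ : C.ext v x ∈ C.gr (X.prod X) X.dim := by
      have := ext_mem (C := C) (H := H) hv hx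
      rwa [sub_add_cancel] at this
    have hγcl : H.cl (C.ext v x) = 0 := by
      rw [TheoryData.ext, map_mul, H.cl_pull, H.cl_pull, hcl, map_zero, mul_zero]
    have h1 := hF.motivic hK X i 0 (C.ext v x) hγ
      (fun a _ => by rw [hγcl, TheoryData.act_zero]) u ((hF.zero X i u).2 hu)
    rw [act_ext (H := H), huv, one_mul] at h1
    exact h1

lemma zeroIsAll_of_motivic (hK : KunnethConjecture H) {F : Filtration C}
    (hF : IsFiniteMotivic H F) (X : 𝒱.Obj) (i : ℕ) : ZeroIsAll H X i := by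
  intro π hπ
  have h1 := eq_fil hK hF hπ i 0
  rw [Nat.cast_zero] at h1
  rw [← h1]
  ext x
  exact hF.zero X i x

lemma D_of_motivic (hK : KunnethConjecture H) {F : Filtration C}
    (hF : IsFiniteMotivic H F) (hA : ∀ X : 𝒱.Obj, ∃ π, IsCK H X π) {π : ℕ → C.A (X.prod X)}
    (hπ : IsCK H X π) (i : ℕ) : MurreDFor H π i := by
  intro x
  have h1 := eq_fil hK hF hπ i 1
  rw [Nat.cast_one] at h1
  rw [← h1]
  exact one_iff hK hF hA X i x

/-- Homologically trivial correspondences strictly lower the weights, in all degrees. -/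
lemma comp_zero_of_D (hD : ∀ (X : 𝒱.Obj) (π : ℕ → C.A (X.prod X)), IsCK H X π → ∀ i : ℕ,
    MurreDFor H π i) {π : ℕ → C.A (X.prod X)} {ρ : ℕ → C.A (Y.prod Y)} (hπ : IsCK H X π)
    (hρ : IsCK H Y ρ) {r : ℤ} {Γ : C.A (X.prod Y)} (hΓ : C.Deg (X.dim + r) Γ)
    (hcl : H.cl Γ = 0) {a b : ℕ} (hab : (a : ℤ) + 2 * r ≤ b) :
    C.comp (C.comp (π a) Γ) (ρ b) = 0 := by
  by_cases ha : a ≤ 2 * X.dim
  swap
  · rw [hπ.out a (by omega), zero_comp, zero_comp]
  by_cases hneg : (X.dim : ℤ) + r < 0
  · have h2 : Γ = 0 := by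
      have h3 := C.gr_neg (X.prod Y) _ hneg
      have h4 : Γ ∈ C.gr (X.prod Y) (X.dim + r) := hΓ
      rw [h3] at h4
      exact (Submodule.mem_bot _).1 h4
    rw [h2, comp_zero, zero_comp]
  obtain ⟨i, hi⟩ := Int.eq_ofNat_of_zero_le (not_lt.1 hneg)
  have hΓ' : Γ ∈ C.gr (X.prod Y) i := by
    have h4 : Γ ∈ C.gr (X.prod Y) (X.dim + r) := hΓ
    rwa [hi] at h4
  apply comp_zero_of_prod (H := H) hπ hρ ha
  exact (murreDFor_iff (hπ.dual.prod hρ) i).1 (hD _ _ (hπ.dual.prod hρ) i) Γ hΓ' hcl _ (by omega)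

/-- The general stability. -/
lemma stable_of (hA : ∀ X : 𝒱.Obj, ∃ π, IsCK H X π)
    (hD : ∀ (X : 𝒱.Obj) (π : ℕ → C.A (X.prod X)), IsCK H X π → ∀ i : ℕ, MurreDFor H π i)
    {F : Filtration C} (hfil : ∀ (X : 𝒱.Obj) (π : ℕ → C.A (X.prod X)), IsCK H X π →
      ∀ i n : ℕ, F.F X i n = fil C π i n) : IsStable H F := by
  have hzero : ∀ (X : 𝒱.Obj) (i : ℕ), ZeroIsAll H X i :=
    fun X i π hπ => fil_zero_of_D hπ (hD X π hπ i)
  have hmemgr : ∀ (Z X : 𝒱.Obj) (j i : ℕ) (Γ : C.A (Z.prod X)), C.Deg (Z.dim + i - j) Γ →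
      ∀ z, C.Deg j z → C.Deg i (C.act Γ z) := by
    intro Z X j i Γ hΓ z hz
    have h1 : Γ ∈ C.gr (Z.prod X) (Z.dim + ((i : ℤ) - j)) := by
      have h2 : (Z.dim : ℤ) + i - j = Z.dim + (i - j) := by ring
      rw [← h2]
      exact hΓ
    have h3 := act_mem' C h1 hz
    have h4 : (j : ℤ) + (i - j) = i := by ring
    rwa [h4] at h3
  have hdeg : ∀ (Z X : 𝒱.Obj) (j i : ℕ) (Γ : C.A (Z.prod X)), C.Deg (Z.dim + i - j) Γ →
      C.Deg (Z.dim + ((i : ℤ) - j)) Γ := by
    intro Z X j i Γ hΓ
    have h2 : (Z.dim : ℤ) + i - j = Z.dim + (i - j) := by ring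
    rw [← h2]
    exact hΓ
  have hstable : ∀ (Z X : 𝒱.Obj) (j i n : ℕ) (Γ : C.A (Z.prod X)), C.Deg (Z.dim + i - j) Γ →
      ∀ z, F.Mem j n z → F.Mem i n (C.act Γ z) := by
    intro Z X j i n Γ hΓ z hz
    obtain ⟨π, hπ⟩ := hA Z
    obtain ⟨ρ, hρ⟩ := hA X
    change z ∈ F.F Z j n at hz
    rw [hfil Z π hπ, mem_fil hπ] at hz
    change C.act Γ z ∈ F.F X i n
    rw [hfil X ρ hρ, mem_fil hρ]
    refine ⟨hmemgr Z X j i Γ hΓ z hz.1, fun b hb => ?_⟩
    have h1 : z = ∑ a ∈ Finset.range (2 * Z.dim + 1), C.act (π a) z := by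
      rw [← act_sum, hπ.sum, act_dg]
    rw [h1, act_map_sum, act_map_sum]
    apply Finset.sum_eq_zero
    intro a _
    by_cases ha : 2 * (j : ℤ) - n < a
    · rw [hz.2 a ha, TheoryData.act_map_zero, TheoryData.act_map_zero]
    · rw [← C.act_comp, ← C.act_comp, ← comp_assoc, noRaising_of_zeroIsAll (hzero _) π ρ hπ hρ _ Γ
        (hdeg Z X j i Γ hΓ) a b (by omega), TheoryData.act_zero]
  refine ⟨hstable, ?_⟩
  intro Z X j i n Γ hΓ had z hz
  have hkill : Kills H Γ (2 * j - n) := by
    rcases had with h | h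
    · exact h _
    · exact h.2
  obtain ⟨π, hπ⟩ := hA Z
  obtain ⟨ρ, hρ⟩ := hA X
  change z ∈ F.F Z j n at hz
  rw [hfil Z π hπ, mem_fil hπ] at hz
  change C.act Γ z ∈ F.F X i (n + 1)
  rw [hfil X ρ hρ, mem_fil hρ]
  refine ⟨hmemgr Z X j i Γ hΓ z hz.1, fun b hb => ?_⟩
  have h1 : z = ∑ a ∈ Finset.range (2 * Z.dim + 1), C.act (π a) z := by
    rw [← act_sum, hπ.sum, act_dg]
  rw [h1, act_map_sum, act_map_sum]
  apply Finset.sum_eq_zero
  intro a _
  push_cast at hb
  by_cases ha : 2 * (j : ℤ) - n < a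
  · rw [hz.2 a ha, TheoryData.act_map_zero, TheoryData.act_map_zero]
  by_cases hab : (a : ℤ) + 2 * (i - j) < b
  · rw [← C.act_comp, ← C.act_comp, ← comp_assoc, noRaising_of_zeroIsAll (hzero _) π ρ hπ hρ _ Γ
      (hdeg Z X j i Γ hΓ) a b hab, TheoryData.act_zero]
  have ha' : (a : ℤ) = 2 * j - n := by omega
  rw [← C.act_comp, ← C.act_comp, ← comp_assoc]
  set Θ := C.comp (C.comp (π a) Γ) (ρ b) with hΘ
  have hΘdeg : C.Deg (Z.dim + ((i : ℤ) - j)) Θ := by
    have h2 := comp_mem C (e := 0) (e' := (i : ℤ) - j) (Γ := π a) (Δ := Γ)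
      (by rw [add_zero]; exact hπ.deg a) (hdeg Z X j i Γ hΓ)
    have h3 := comp_mem C (e := 0 + ((i : ℤ) - j)) (e' := 0) (Γ := C.comp (π a) Γ) (Δ := ρ b) h2
      (by rw [add_zero]; exact hρ.deg b)
    rwa [zero_add, add_zero] at h3
  have hΘcl : H.cl Θ = 0 := by
    apply hom_zero_of_act H
    intro x
    have h2 : H.actL (H.cl Θ) = 0 := by
      apply ext_gr H
      intro m y hy
      rw [LinearMap.zero_apply, TheoryData.actL_apply, hΘ, actH_comp, actH_comp,
        hπ.actH_eq a m hy]
      split_ifs with hm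
      · subst hm
        rw [ha'] at hy
        rw [hkill y hy, TheoryData.act_map_zero]
      · rw [TheoryData.act_map_zero, TheoryData.act_map_zero]
    have h3 := LinearMap.congr_fun h2 x
    exact h3
  have h2 := comp_zero_of_D hD hπ hρ hΘdeg hΘcl (a := a) (b := b) (by omega)
  have h3 : C.comp (C.comp (π a) Θ) (ρ b) = Θ := by
    rw [hΘ, ← comp_assoc, ← comp_assoc, hπ.idem, comp_assoc C (C.comp (π a) Γ), hρ.idem]
  rw [← h3, h2, TheoryData.act_zero]

end Pool.Agent.Y110
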