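import Pool.Agent.Y110.Weak

/-!
# Multiplicativity and existence
-/

open CategoryTheory AlgebraicGeometry

universe u v w

namespace Pool.Agent.Y110

open Pool.Agent.H914 Pool.Agent.H914.VarClass Pool.Agent.H914.VarClass.Obj Pool.Agent.W492.BB
  Pool.Agent.W550.Corr Pool.Agent.TH133 Pool.Agent.Y110.Dfor

set_option linter.unusedSectionVars false

variable {k : Type u} [Field k] {𝒱 : VarClass k} {C : TheoryData.{u, v, 0} 𝒱 ℚ}
  [hC : IsChowProj C] {K : Type w} [Field K]
  {H : WeilTheoryData.{u, v, w} C K} [hH : IsWeilProj H] {X Y Z W : 𝒱.Obj}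

include hC hH

lemma isMultiplicative_of (hA : ∀ X : 𝒱.Obj, ∃ π, IsCK H X π)
    {F : Filtration C} (hfil : ∀ (X : 𝒱.Obj) (π : ℕ → C.A (X.prod X)), IsCK H X π →
      ∀ i n : ℕ, F.F X i n = fil C π i n) (hst : IsStable H F) : IsMultiplicative F := by
  have hpull : ∀ {X Y : 𝒱.Obj} (f : X ⟶ Y) {i n : ℕ} {y : C.A Y}, F.Mem i n y →
      F.Mem i n (C.up f y) := by
    intro X Y f i n y hy
    have h1 : C.cograph f ∈ C.gr (Y.prod X) (Y.dim + i - i) := by
      have h := C.push_mem (Obj.lift f (𝟙 X)) (C.one_mem X)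
      have e1 : (0 : ℤ) + 1 * (((Y.prod X).dim : ℤ) - (X.dim : ℤ)) = Y.dim + i - i := by
        rw [dim_prod]; push_cast; ring
      rwa [e1] at h
    have h2 := hst.stable Y X i i n (C.cograph f) h1 y hy
    rwa [C.act_cograph] at h2
  refine ⟨?_, hpull, ?_⟩
  · intro X i j m n x y hx hy
    obtain ⟨π, hπ⟩ := hA X
    have hxy : F.Mem (i + j) (m + n) (C.ext x y) := by
      change C.ext x y ∈ F.F (X.prod X) (i + j) (m + n)
      change x ∈ F.F X i m at hx
      change y ∈ F.F X j n at hy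
      rw [hfil X π hπ, mem_fil hπ] at hx hy
      rw [hfil _ _ (hπ.prod hπ), mem_fil (hπ.prod hπ)]
      refine ⟨?_, fun q hq => ?_⟩
      · have := ext_mem (C := C) (H := H) hx.1 hy.1
        push_cast
        exact this
      · unfold prodCK
        rw [act_sum]
        apply Finset.sum_eq_zero
        intro p hp
        rw [Finset.mem_range] at hp
        rw [act_tens_ext C (π p) (π (q - p)) (fun f c => ch_comm C _ _)]
        push_cast at hq
        by_cases h1 : 2 * (i : ℤ) - m < p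
        · rw [hx.2 p h1, TheoryData.ext_zero_left]
        · rw [hy.2 (q - p) (by omega), TheoryData.ext_zero_right]
    have h1 := hpull (Obj.lift (𝟙 X) (𝟙 X)) hxy
    have h2 : C.up (Obj.lift (𝟙 X) (𝟙 X)) (C.ext x y) = C.mul x y := by
      change C.pull _ (C.pull _ x * C.pull _ y) = x * y
      rw [map_mul, ← C.pull_comp, ← C.pull_comp, lift_fst, lift_snd, C.pull_id, C.pull_id]
    rwa [h2] at h1
  · intro X Y f i j n x hij hx
    have h1 : C.graph f ∈ C.gr (X.prod Y) (X.dim + j - i) := by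
      have h := C.push_mem (Obj.lift (𝟙 X) f) (C.one_mem X)
      have e1 : (0 : ℤ) + 1 * (((X.prod Y).dim : ℤ) - (X.dim : ℤ)) = X.dim + j - i := by
        rw [dim_prod]; push_cast; omega
      rwa [e1] at h
    have h2 := hst.stable X Y i j n (C.graph f) h1 x hx
    rwa [C.act_graph] at h2

/-- The consequences of property 5. -/
theorem main_forward (hK : KunnethConjecture H) {F : Filtration C}
    (hF : IsFiniteMotivic H F) :
    (∀ X : 𝒱.Obj, ∃ π, IsCK H X π) ∧
    (∀ (X : 𝒱.Obj) (π : ℕ → C.A (X.prod X)), IsCK H X π → ∀ i n : ℕ,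
      F.F X i n = fil C π i n) ∧
    (∀ (X : 𝒱.Obj) (i : ℕ) (x : C.A X), F.Mem i 1 x ↔ C.Deg i x ∧ H.cl x = 0) ∧
    IsMultiplicative F ∧ IsStable H F := by
  have hA : ∀ X : 𝒱.Obj, ∃ π, IsCK H X π := fun X =>
    exists_isCK_of_nilpotent hK fun N hN hcl => nilpotent_of_motivic hK hF hN hcl
  have hfil : ∀ (X : 𝒱.Obj) (π : ℕ → C.A (X.prod X)), IsCK H X π → ∀ i n : ℕ,
      F.F X i n = fil C π i n := fun X π hπ i n => eq_fil hK hF hπ i n
  have hD : ∀ (X : 𝒱.Obj) (π : ℕ → C.A (X.prod X)), IsCK H X π → ∀ i : ℕ, MurreDFor H π i :=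
    fun X π hπ i => D_of_motivic hK hF hA hπ i
  have hst := stable_of hA hD hfil
  exact ⟨hA, hfil, one_iff hK hF hA, isMultiplicative_of hA hfil hst, hst⟩

/-- The converse: the filtration attached to Chow-Kunneth decompositions satisfying (D). -/
theorem main_backward (hA : ∀ X : 𝒱.Obj, ∃ π, IsCK H X π)
    (hD : ∀ (X : 𝒱.Obj) (π : ℕ → C.A (X.prod X)), IsCK H X π → ∀ i : ℕ, MurreDFor H π i) :
    ∃ F : Filtration C, IsFiniteMotivic H F := by
  choose π hπ using hA
  have hzero : ∀ (X : 𝒱.Obj) (i : ℕ), ZeroIsAll H X i :=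
    fun X i π hπ => fil_zero_of_D hπ (hD X π hπ i)
  have hind : ∀ X : 𝒱.Obj, Independent H X := C_of_zeroIsAll hzero
  let F : Filtration C :=
    { F := fun X i n => fil C (π X) i n
      le_gr := fun X i n x hx => ((mem_fil (hπ X) i n x).1 hx).1
      anti := fun X i n x hx => by
        rw [mem_fil (hπ X)] at hx ⊢
        exact ⟨hx.1, fun j hj => hx.2 j (by push_cast; omega)⟩ }
  have hfil : ∀ (X : 𝒱.Obj) (ρ : ℕ → C.A (X.prod X)), IsCK H X ρ → ∀ i n : ℕ,
      F.F X i n = fil C ρ i n := fun X ρ hρ i n => hind X (π X) ρ (hπ X) hρ i n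
  have hst := stable_of (fun X => ⟨π X, hπ X⟩) hD hfil
  refine ⟨F, ?_, ?_, ?_⟩
  · intro X i x
    change x ∈ fil C (π X) i ((0 : ℕ) : ℤ) ↔ x ∈ C.gr X i
    rw [Nat.cast_zero, hzero X i (π X) (hπ X)]
  · intro X i
    refine ⟨2 * i + 1, fun x hx => ?_⟩
    have hx' : x ∈ fil C (π X) i ((2 * i + 1 : ℕ) : ℤ) := hx
    rw [mem_fil (hπ X)] at hx'
    have h1 : x = ∑ j ∈ Finset.range (2 * X.dim + 1), C.act (π X j) x := by
      rw [← act_sum, (hπ X).sum, act_dg]
    rw [h1]
    exact Finset.sum_eq_zero fun j _ => hx'.2 j (by push_cast; omega)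
  · intro hK X i n Γ hΓ hkill x hx
    have h1 : C.Deg (X.dim + i - i) Γ := by
      rw [add_sub_cancel_right]
      exact hΓ
    exact hst.shift X X i i n Γ h1 (Or.inr ⟨hK, hkill⟩) x hx

end Pool.Agent.Y110
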