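import Pool.Agent.Y110.Defs

/-!
# Filtrations with property 5: definitions
-/

open CategoryTheory AlgebraicGeometry

universe u v w

namespace Pool.Agent.Y110

open Pool.Agent.H914 Pool.Agent.H914.VarClass Pool.Agent.H914.VarClass.Obj Pool.Agent.W492.BB
  Pool.Agent.W550.Corr Pool.Agent.TH133

variable {k : Type u} [Field k] {𝒱 : VarClass k} {C : TheoryData.{u, v, 0} 𝒱 ℚ}
  {K : Type w} [Field K] (H : WeilTheoryData.{u, v, w} C K)

/-- A family of filtrations of the Chow groups which start with `F^0 CH^i(X) = CH^i(X)`, are finite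
on every `CH^i(X)`, and have property 5: if a self-correspondence of degree zero of `X` acts as zero
on `H^(2i-n)(X)`, it maps `F^n CH^i(X)` to `F^(n+1) CH^i(X)`. -/
structure IsFiniteMotivic (F : Filtration C) : Prop where
  zero : ∀ (X : 𝒱.Obj) (i : ℕ) (x : C.A X), F.Mem i 0 x ↔ C.Deg i x
  finite : ∀ (X : 𝒱.Obj) (i : ℕ), ∃ N : ℕ, ∀ x : C.A X, F.Mem i N x → x = 0
  motivic : IsMotivic H F

end Pool.Agent.Y110
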